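import Pool.Agent.Y226.ZW.Field

/-!
# Simplification of the bounds
-/

set_option autoImplicit false

namespace Pool.Agent.Y226.ZW

theorem p_large {d p : ℕ} (hd : 0 < d) (hp : 16 * (d + 1) ^ 4 < p) : 257 ≤ p := by
  have h1 : 2 ^ 4 ≤ (d + 1) ^ 4 := Nat.pow_le_pow_left (by omega) 4
  omega

theorem bN_le {p f d : ℕ} (hp : 16 * (d + 1) ^ 4 < p) (hf : 0 < f) (hd : 0 < d) :
    bN p f d ≤ p ^ (17 * f * d * p) := by
  have hp' := p_large hd hp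
  unfold bN
  rw [← pow_add, ← pow_mul]
  refine Nat.pow_le_pow_right (by omega) ?_
  obtain ⟨m, hm⟩ : ∃ m, m = f * d := ⟨_, rfl⟩
  have hm1 : 0 < m := by rw [hm]; exact Nat.mul_pos hf hd
  have h1 : (f * (8 * d * p + 4 * d) + 2) * 2 = 16 * (m * p) + 8 * m + 4 := by
    rw [hm]; ring
  have h2 : 17 * f * d * p = 17 * (m * p) := by rw [hm]; ring
  have h3 : m * 257 ≤ m * p := Nat.mul_le_mul_left m hp'
  rw [h1, h2]
  omega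

theorem mN_le {n d p : ℕ} (hn : 0 < n) (hd : 0 < d) (hp : 16 * (d + 1) ^ 4 < p) :
    2 * (mN n d p * (2 * d)) ≤ 9 * n ^ 4 * d ^ 2 * p ^ 2 := by
  have hp' := p_large hd hp
  have h1 : 2 * (mN n d p * (2 * d)) = n ^ 4 * d ^ 2 * (32 * p + 16) +
      8 * (n ^ 3 * (d ^ 2 * p ^ 2)) := by
    unfold mN
    ring
  have h2 : 32 * p + 16 ≤ p ^ 2 := by nlinarith
  have h3 : n ^ 4 * d ^ 2 * (32 * p + 16) ≤ n ^ 4 * d ^ 2 * p ^ 2 := Nat.mul_le_mul_left _ h2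
  have h4 : n ^ 3 * (d ^ 2 * p ^ 2) ≤ n ^ 4 * (d ^ 2 * p ^ 2) :=
    Nat.mul_le_mul_right _ (Nat.pow_le_pow_right hn (by norm_num))
  calc 2 * (mN n d p * (2 * d)) = n ^ 4 * d ^ 2 * (32 * p + 16) +
      8 * (n ^ 3 * (d ^ 2 * p ^ 2)) := h1
    _ ≤ n ^ 4 * d ^ 2 * p ^ 2 + 8 * (n ^ 4 * (d ^ 2 * p ^ 2)) :=
        Nat.add_le_add h3 (Nat.mul_le_mul_left 8 h4)
    _ = 9 * n ^ 4 * d ^ 2 * p ^ 2 := by ring

end Pool.Agent.Y226.ZW
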