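import Pool.Agent.Y226.ZP.Tate

/-!
# The coefficients of `j` are integers
-/

set_option autoImplicit false

open UpperHalfPlane ModularForm H294ZP H294ZP.TA2

namespace Pool.Agent.Y226.ZW

open Pool.Agent.Y226

theorem R_one : R (1 : PowerSeries ℂ) (fun _ => 1) := by
  intro τ
  have := hasSum_ite_eq (0 : ℕ) (1 : ℂ)
  have h7 : (fun n : ℕ => (1 : PowerSeries ℂ).coeff n * qq 1 τ ^ n) =
      fun n : ℕ => if n = 0 then (1 : ℂ) else 0 := by
    funext n
    rw [PowerSeries.coeff_one]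
    by_cases hn : n = 0
    · subst hn
      simp
    · simp [hn]
  rw [h7]
  exact this

theorem R_add {P Q : PowerSeries ℂ} {F G : ℍ → ℂ} (hP : R P F) (hQ : R Q G) :
    R (P + Q) (fun τ => F τ + G τ) := by
  intro τ
  have h := (hP τ).add (hQ τ)
  have h6 : (fun n : ℕ => (P + Q).coeff n * qq 1 τ ^ n) =
      fun n : ℕ => P.coeff n * qq 1 τ ^ n + Q.coeff n * qq 1 τ ^ n := by
    funext n
    rw [map_add]
    ring
  rw [h6]
  exact h

theorem R_uniq {P Q : PowerSeries ℂ} {F : ℍ → ℂ} (hP : R P F) (hQ : R Q F) : P = Q := by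
  have h1 := R_add (R_sub hP hQ) R_one
  have h2 : (fun τ : ℍ => F τ - F τ + 1) = fun _ => (1 : ℂ) := by
    funext τ
    ring
  rw [h2] at h1
  have h3 := R_unique h1 R_one
  have h4 : P - Q = 0 := by
    have := congrArg (fun X => X - 1) h3
    simpa using this
  exact sub_eq_zero.1 h4

/-- the coefficients of the expansion of `j` are integers -/
theorem cj_int (n : ℕ) : ∃ z : ℤ, ((cj n : ZZ) : ℂ) = z := by
  have h := R_mul (R_mul (R_mul R_E4 R_E4) R_E4) R_V
  rw [E4_eq, ← map_mul, ← map_mul, ← map_mul] at h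
  set W : PowerSeries ℤ := (1 + 240 * A) * (1 + 240 * A) * (1 + 240 * A) * V with hW
  have h3 : (fun τ : ℍ => E₄ τ * E₄ τ * E₄ τ * (qq 1 τ / discriminant τ)) =
      fun τ => qq 1 τ ^ 1 * jj τ := by
    funext τ
    unfold jj
    ring
  rw [h3] at h
  have h4 : R (PowerSeries.mk fun n => ιZ (cj n)) (fun τ => qq 1 τ ^ 1 * jj τ) := by
    intro τ
    have := cj_hasSum τ
    simpa using this
  have h5 := congrArg (PowerSeries.coeff n) (R_uniq h4 h)
  rw [PowerSeries.coeff_mk, PowerSeries.coeff_map] at h5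
  exact ⟨W.coeff n, h5⟩

theorem cj_int' (n : ℕ) : ∃ z : ℤ, cj n = (z : ZZ) := by
  obtain ⟨z, hz⟩ := cj_int n
  refine ⟨z, Subtype.ext ?_⟩
  rw [hz]
  simp

end Pool.Agent.Y226.ZW
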