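import Pool.Agent.Y226.ZW.LocalL

/-!
# The number of atypical points on a rational curve: the local part
-/

set_option autoImplicit false
set_option linter.unusedSectionVars false

open UpperHalfPlane H294ZP Polynomial

namespace Pool.Agent.Y226.ZW

open Pool.Agent.Y226 Pool.Agent.Y226.ZR

variable {C : Type} [NormedField C] [IsUltrametricDist C] [CompleteSpace C] [CharZero C]
  [IsAlgClosed C]
variable {p : ℕ} [hpf : Fact p.Prime]
variable {k : Type} [Field k] [CharP k p]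

/-- the number of labels -/
def mN (n d p : ℕ) : ℕ :=
  n * (n * (n * n)) * (8 * d * p + 4 * d) + n * (n * n * ((d + d) * p ^ 2))

theorem curve_count {n d : ℕ} (hpD : 16 * (d + 1) ^ 4 < p) (hp0 : 0 < ‖(p : C)‖)
    (hp1 : ‖(p : C)‖ < 1) (red : OO C →+* k)
    (hker : ∀ x : OO C, red x = 0 ↔ ‖(x : C)‖ < 1) {ff : ℕ} (hff : 0 < ff) :
    ∀ F : Subfield C, IsClosed (F : Set C) → Un p F ff →
      ∀ (A B : Fin n → (OO C)[X]) (D : Fin n → ℕ), (∀ i, 0 < D i ∧ D i ≤ d) →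
      (∀ i, A i ∈ PR (FO F)) → (∀ i, B i ∈ PR (FO F)) →
      (∀ i, (A i).natDegree ≤ D i) → (∀ i, (B i).natDegree ≤ D i) →
      (∀ i, Cop red (A i) (B i) (D i) (D i)) →
      (∀ i j, i ≠ j → Cop red (A i * B i) (A j * B j) (D i + D i) (D j + D j)) →
      ∀ (φ : QA →+* C) (α β : Fin n → QA[X]),
      (∀ i, (α i).map φ = (A i).map (OO C).subtype) →
      (∀ i, (β i).map φ = (B i).map (OO C).subtype) →
      (∀ cO : OO C, (cO : C) = φ (iA (cj 1)) → red cO ∈ FK k p ff) →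
      ∀ e : ℕ, 0 < e → ∀ 𝒳 : Finset (Fin n → QA), (∀ X ∈ 𝒳,
      ((∃ s : QA, ∀ i, (β i).eval s * ((p : QA) ^ e * X i) = (α i).eval s) ∨
        ∀ i, (β i).coeff (D i) * ((p : QA) ^ e * X i) = (α i).coeff (D i)) ∧
      ∃ (r : ℕ) (cls : Fin n → Option (Fin r)), r + 2 ≤ n ∧
      (∀ i, cls i = none → ‖φ (X i)‖ ≤ 1) ∧
      (∀ (j l : Fin n) (c : Fin r), cls j = some c → cls l = some c →
        ∃ (w w' : ℍ) (a b c' d' : ℤ), 0 < a * d' - b * c' ∧ (w' : ℂ) * (c' * w + d') = a * w + b ∧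
          rA (X j) = jj w ∧ rA (X l) = jj w')) → 𝒳.card ≤ 2 * (mN n d p * (2 * d)) := by
  classical
  have hG := PData.local_main_l (n := n) (d := d) hpD hp0 hp1 red hker hff
  intro F hFc hF A B D hD hA hB dA dB h1 h2 φ α β hα hβ hcj e he 𝒳 h𝒳
  have hpC : (p : C) ≠ 0 := norm_pos_iff.1 hp0
  have hpO : ‖(p : C)‖ ≤ 1 := hp1.le
  set pu : Cˣ := Units.mk0 (p : C) hpC with hpu
  set Λ : Cˣ := (pu ^ (e : ℤ))⁻¹ with hΛ
  have hΛm : Λ * pu ^ (e : ℤ) ∈ GG C p 0 le_rfl one_pos := by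
    rw [hΛ, inv_mul_cancel]; exact one_mem _
  have hΛv : (Λ : C) = ((p : C) ^ e)⁻¹ := by
    rw [hΛ, Units.val_inv_eq_inv_val, Units.val_zpow_eq_zpow_val, zpow_natCast, hpu, Units.val_mk0]
  have hΛ1 : 1 < ‖(Λ : C)‖ := by
    rw [hΛv, norm_inv, norm_pow]
    exact (one_lt_inv₀ (pow_pos hp0 e)).2 (pow_lt_one₀ (norm_nonneg _) hp1 he.ne')
  have hψ : ∀ z, ‖(φ.comp iA) z‖ ≤ 1 := psi_norm φ
  -- `κ`
  have hc1 : ‖φ (iA (cj 1))‖ ≤ 1 := psi_norm φ (cj 1)
  set cO : OO C := ⟨φ (iA (cj 1)), hc1⟩ with hcO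
  set κ : OO C := cO * (p : OO C) ^ (e - 1) with hκ
  have hcoe : ((p : OO C) : C) = (p : C) := by simp
  have hκC : (p : C) * κ * Λ = φ (iA (cj 1)) := by
    have h3 : (κ : C) = φ (iA (cj 1)) * (p : C) ^ (e - 1) := by
      rw [hκ, Subring.coe_mul, Subring.coe_pow, hcoe]
    obtain ⟨q, rfl⟩ : ∃ q, e = q + 1 := ⟨e - 1, by omega⟩
    rw [h3, hΛv, Nat.add_sub_cancel, pow_succ]
    have := pow_ne_zero q hpC
    field_simp
  have hκr : red κ ∈ FK k p ff := by
    rw [hκ, map_mul, map_pow, map_natCast]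
    exact mul_mem (hcj cO rfl) (pow_mem (natCast_mem _ _) _)
  have hevO : ∀ (P : (OO C)[X]) (x : OO C), (P.map (OO C).subtype).eval (x : C) =
      ((P.eval x : OO C) : C) := fun P x => eval_map_apply (f := (OO C).subtype) x
  have key : ∀ (A B : Fin n → (OO C)[X]), (∀ i, A i ∈ PR (FO F)) → (∀ i, B i ∈ PR (FO F)) →
      (∀ i, (A i).natDegree ≤ D i) → (∀ i, (B i).natDegree ≤ D i) →
      (∀ i, Cop red (A i) (B i) (D i) (D i)) →
      (∀ i j, i ≠ j → Cop red (A i * B i) (A j * B j) (D i + D i) (D j + D j)) →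
      ∀ (α β : Fin n → QA[X]),
      (∀ i, (α i).map φ = (A i).map (OO C).subtype) →
      (∀ i, (β i).map φ = (B i).map (OO C).subtype) → ∀ 𝒴 : Finset (Fin n → QA),
      (∀ X ∈ 𝒴, (∃ s : QA, ‖φ s‖ ≤ 1 ∧
        ∀ i, (β i).eval s * ((p : QA) ^ e * X i) = (α i).eval s) ∧
      ∃ (r : ℕ) (cls : Fin n → Option (Fin r)), r + 2 ≤ n ∧
      (∀ i, cls i = none → ‖φ (X i)‖ ≤ 1) ∧
      (∀ (j l : Fin n) (c : Fin r), cls j = some c → cls l = some c →
        ∃ (w w' : ℍ) (a b c' d' : ℤ), 0 < a * d' - b * c' ∧ (w' : ℂ) * (c' * w + d') = a * w + b ∧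
          rA (X j) = jj w ∧ rA (X l) = jj w')) → 𝒴.card ≤ mN n d p * (2 * d) := by
    intro A B hA hB dA dB h1 h2 α β hα hβ 𝒴 h𝒴
    obtain ⟨𝒟, h𝒟A, h𝒟B⟩ := exists_PData hp0 hker hff hF hD hA hB dA dB h1 h2
    obtain ⟨𝓛, h𝓛, hmain⟩ := hG 𝒟 F hFc hF (fun i m => by
        rw [h𝒟A, coeff_map]; exact mem_FO.1 (mem_PR.1 (hA i) m)) (fun i m => by
        rw [h𝒟B, coeff_map]; exact mem_FO.1 (mem_PR.1 (hB i) m)) φ Λ pu e he rfl hΛm κ hκC hκr
    have hAv : ∀ i s, (𝒟.A i).eval (φ s) = φ ((α i).eval s) := fun i s => by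
      rw [h𝒟A, ← hα, eval_map_apply]
    have hBv : ∀ i s, (𝒟.B i).eval (φ s) = φ ((β i).eval s) := fun i s => by
      rw [h𝒟B, ← hβ, eval_map_apply]
    -- the parameters with their labels
    have hs : ∀ X : Fin n → QA, ∃ s : QA, X ∈ 𝒴 → ∃ hs1 : ‖φ s‖ ≤ 1,
        (∀ i, (β i).eval s * ((p : QA) ^ e * X i) = (α i).eval s) ∧
        (∀ i, (β i).eval s ≠ 0) ∧ ∃ b ∈ 𝓛, LabRel 𝒟 red (φ.comp iA) Λ ⟨φ s, hs1⟩ b := by
      intro X
      by_cases hXY : X ∈ 𝒴
      · obtain ⟨⟨s, hs, hX⟩, r, cls, hr, hnone, hrel⟩ := h𝒴 X hXY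
        have hB0 : ∀ i, (𝒟.B i).eval (φ s) ≠ 0 := by
          intro i h0
          have h3 := h0
          rw [hBv] at h3
          have h4 : (α i).eval s = 0 := by
            rw [← hX i, (map_eq_zero φ).1 h3, zero_mul]
          have h5 := (h1 i).fin ⟨φ s, hs⟩
          have e1 : (A i).eval ⟨φ s, hs⟩ = 0 := by
            apply Subtype.ext
            rw [← hevO, ← h𝒟A]
            show (𝒟.A i).eval (φ s) = 0
            rw [hAv, h4, map_zero]
          have e2 : (B i).eval ⟨φ s, hs⟩ = 0 := by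
            apply Subtype.ext
            rw [← hevO, ← h𝒟B]
            exact h0
          rw [e1, e2, map_zero] at h5
          exact h5.elim (fun h => h rfl) fun h => h rfl
        obtain ⟨j, l, -, -, N, -, -, -, hb⟩ := hmain X (φ s) hs (exists_near hp1 φ s hs) hB0
          (fun i => by
            rw [hAv, hBv, ← hX i, map_mul, map_mul, map_pow, map_natCast, hΛv]
            have := pow_ne_zero e hpC
            field_simp) r cls hr hnone hrel
        exact ⟨s, fun _ => ⟨hs, hX, fun i h0 => hB0 i (by rw [hBv, h0, map_zero]), hb⟩⟩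
      · exact ⟨0, fun h => absurd h hXY⟩
    choose s hs using hs
    choose hs1 hsX hsβ hsb using hs
    -- the points with a given label
    have hlab : ∀ b ∈ 𝓛, (𝒴.filter fun X => ∃ h : X ∈ 𝒴,
        LabRel 𝒟 red (φ.comp iA) Λ ⟨φ (s X), hs1 X h⟩ b).card ≤ 2 * d := by
      intro b _
      set 𝒵 := 𝒴.filter fun X => ∃ h : X ∈ 𝒴,
        LabRel 𝒟 red (φ.comp iA) Λ ⟨φ (s X), hs1 X h⟩ b with h𝒵
      let f : (Fin n → QA) → OO C := fun X => if h : X ∈ 𝒴 then ⟨φ (s X), hs1 X h⟩ else 0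
      have hf : ∀ X (h : X ∈ 𝒴), f X = ⟨φ (s X), hs1 X h⟩ := fun X h => dif_pos h
      have hinj : Set.InjOn f 𝒵 := by
        intro X hX Y hY hXY
        rw [Finset.mem_coe, h𝒵, Finset.mem_filter] at hX hY
        rw [hf X hX.1, hf Y hY.1] at hXY
        have h3 : s X = s Y := φ.injective (congrArg Subtype.val hXY)
        funext i
        have h4 := hsX X hX.1 i
        have h5 := hsX Y hY.1 i
        rw [h3, ← h5] at h4
        have h6 := mul_left_cancel₀ (hsβ Y hY.1 i) h4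
        exact mul_left_cancel₀ (pow_ne_zero e (by exact_mod_cast hpf.out.ne_zero)) h6
      rw [← Finset.card_image_of_injOn hinj]
      refine lab_count hψ 𝒟 hp1 red hker hΛ1 b _ fun t ht => ?_
      obtain ⟨X, hX, rfl⟩ := Finset.mem_image.1 ht
      rw [h𝒵, Finset.mem_filter] at hX
      obtain ⟨hX1, h, hX2⟩ := hX
      rw [hf X h]
      exact hX2
    have hsub : 𝒴 ⊆ 𝓛.biUnion fun b => 𝒴.filter fun X => ∃ h : X ∈ 𝒴,
        LabRel 𝒟 red (φ.comp iA) Λ ⟨φ (s X), hs1 X h⟩ b := by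
      intro X hX
      obtain ⟨b, hb, hb'⟩ := hsb X hX
      exact Finset.mem_biUnion.2 ⟨b, hb, Finset.mem_filter.2 ⟨hX, hX, hb'⟩⟩
    refine (Finset.card_le_card hsub).trans ((Finset.card_biUnion_le_card_mul _ _ _ hlab).trans ?_)
    exact Nat.mul_le_mul_right _ h𝓛
  have key1 := key A B hA hB dA dB h1 h2 α β hα hβ
  have key2 := key (fun i => reflect (D i) (A i)) (fun i => reflect (D i) (B i))
    (fun i => reflect_mem (hA i) _) (fun i => reflect_mem (hB i) _)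
    (fun i => natDegree_reflect (dA i)) (fun i => natDegree_reflect (dB i))
    (fun i => cop_reflect hker (dA i) (dB i) (h1 i))
    (fun i j hij => by
      rw [← reflect_mul _ _ (dA i) (dB i), ← reflect_mul _ _ (dA j) (dB j)]
      exact cop_reflect hker (natDegree_mul_le_of_le (dA i) (dB i))
        (natDegree_mul_le_of_le (dA j) (dB j)) (h2 i j hij))
    (fun i => reflect (D i) (α i)) (fun i => reflect (D i) (β i))
    (fun i => by rw [← reflect_map, hα, reflect_map])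
    (fun i => by rw [← reflect_map, hβ, reflect_map])
  have hdeg : ∀ {P : QA[X]} {Q : (OO C)[X]} {m : ℕ}, P.map φ = Q.map (OO C).subtype →
      Q.natDegree ≤ m → P.natDegree ≤ m := by
    intro P Q m h3 h4
    rw [← natDegree_map_eq_of_injective φ.injective, h3]
    exact natDegree_map_le.trans h4
  have hk1 := key1 (𝒳.filter fun X => ∃ s : QA, ‖φ s‖ ≤ 1 ∧
    ∀ i, (β i).eval s * ((p : QA) ^ e * X i) = (α i).eval s) (fun X hX => by
      rw [Finset.mem_filter] at hX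
      exact ⟨hX.2, (h𝒳 X hX.1).2⟩)
  have hk2 := key2 (𝒳.filter fun X => ∃ s : QA, ‖φ s‖ ≤ 1 ∧
    ∀ i, (reflect (D i) (β i)).eval s * ((p : QA) ^ e * X i) = (reflect (D i) (α i)).eval s)
    (fun X hX => by
      rw [Finset.mem_filter] at hX
      exact ⟨hX.2, (h𝒳 X hX.1).2⟩)
  have hcov : 𝒳 ⊆ (𝒳.filter fun X => ∃ s : QA, ‖φ s‖ ≤ 1 ∧
    ∀ i, (β i).eval s * ((p : QA) ^ e * X i) = (α i).eval s) ∪
    (𝒳.filter fun X => ∃ s : QA, ‖φ s‖ ≤ 1 ∧
    ∀ i, (reflect (D i) (β i)).eval s * ((p : QA) ^ e * X i) = (reflect (D i) (α i)).eval s) := by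
    intro X hX
    rw [Finset.mem_union, Finset.mem_filter, Finset.mem_filter]
    rcases (h𝒳 X hX).1 with ⟨s, hs⟩ | hXi
    · by_cases hs1 : ‖φ s‖ ≤ 1
      · exact Or.inl ⟨hX, s, hs1, hs⟩
      · push Not at hs1
        have hs0 : s ≠ 0 := by
          rintro rfl
          rw [map_zero, norm_zero] at hs1
          linarith
        refine Or.inr ⟨hX, s⁻¹, ?_, fun i => ?_⟩
        · rw [map_inv₀, norm_inv]
          exact (inv_lt_one_of_one_lt₀ hs1).le
        · have h3 := hs i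
          rw [← eval_reflect (hdeg (hα i) (dA i)) hs0,
            ← eval_reflect (hdeg (hβ i) (dB i)) hs0] at h3
          have h4 : s ^ D i ≠ 0 := pow_ne_zero _ hs0
          apply mul_right_cancel₀ h4
          linear_combination h3
    · refine Or.inr ⟨hX, 0, by rw [map_zero, norm_zero]; exact zero_le_one, fun i => ?_⟩
      rw [← coeff_zero_eq_eval_zero, ← coeff_zero_eq_eval_zero, coeff_reflect, coeff_reflect,
        revAt_le (Nat.zero_le _), Nat.sub_zero]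
      exact hXi i
  refine (Finset.card_le_card hcov).trans ((Finset.card_union_le _ _).trans ?_)
  omega

end Pool.Agent.Y226.ZW
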