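import Pool.Agent.Y226.ZR.Chart
import Pool.Agent.Y226.ZW.Local

/-!
# The explicit local theorem for a rational curve
-/

set_option autoImplicit false
set_option linter.unusedSectionVars false

open UpperHalfPlane H294ZP Polynomial

namespace Pool.Agent.Y226.ZW

open Pool.Agent.Y226 Pool.Agent.Y226.ZR

variable {C : Type} [NormedField C] [IsUltrametricDist C] [CompleteSpace C] [CharZero C]
  [IsAlgClosed C]
variable {p : ℕ} [hpf : Fact p.Prime]
variable {k : Type} [Field k] [CharP k p]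

/-- the bound for the degrees of the isogenies -/
def bN (p ff d : ℕ) : ℕ := (p ^ (ff * (8 * d * p + 4 * d)) * p ^ 2) ^ 2

theorem curve_local_e {n d : ℕ} (hpD : 16 * (d + 1) ^ 4 < p) (hp0 : 0 < ‖(p : C)‖)
    (hp1 : ‖(p : C)‖ < 1) (red : OO C →+* k)
    (hker : ∀ x : OO C, red x = 0 ↔ ‖(x : C)‖ < 1) {ff : ℕ} (hff : 0 < ff) :
    ∀ F : Subfield C, IsClosed (F : Set C) → Un p F ff →
      ∀ (A B : Fin n → (OO C)[X]) (D : Fin n → ℕ), (∀ i, 0 < D i ∧ D i ≤ d) →
      (∀ i, A i ∈ PR (FO F)) → (∀ i, B i ∈ PR (FO F)) →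
      (∀ i, (A i).natDegree ≤ D i) → (∀ i, (B i).natDegree ≤ D i) →
      (∀ i, Cop red (A i) (B i) (D i) (D i)) →
      (∀ i j, i ≠ j → Cop red (A i * B i) (A j * B j) (D i + D i) (D j + D j)) →
      ∀ (φ : QA →+* C) (α β : Fin n → QA[X]),
      (∀ i, (α i).map φ = (A i).map (OO C).subtype) →
      (∀ i, (β i).map φ = (B i).map (OO C).subtype) →
      (∀ cO : OO C, (cO : C) = φ (iA (cj 1)) → red cO ∈ FK k p ff) →
      ∀ e : ℕ, 0 < e → ∀ X : Fin n → QA,
      ((∃ s : QA, ∀ i, (β i).eval s * ((p : QA) ^ e * X i) = (α i).eval s) ∨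
        ∀ i, (β i).coeff (D i) * ((p : QA) ^ e * X i) = (α i).coeff (D i)) →
      ∀ (r : ℕ) (cls : Fin n → Option (Fin r)), r + 2 ≤ n →
      (∀ i, cls i = none → ‖φ (X i)‖ ≤ 1) →
      (∀ (j l : Fin n) (c : Fin r), cls j = some c → cls l = some c →
        ∃ (w w' : ℍ) (a b c' d' : ℤ), 0 < a * d' - b * c' ∧ (w' : ℂ) * (c' * w + d') = a * w + b ∧
          rA (X j) = jj w ∧ rA (X l) = jj w') →
      ∃ j k : Fin n, j ≠ k ∧ (∃ c, cls j = some c ∧ cls k = some c) ∧ ∃ N : ℕ, 0 < N ∧ N ≤ bN p ff d ∧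
        PsiE ιZ (mP N) (mD N) (rA (X j)) (rA (X k)) = 0 := by
  have hG := PData.local_main_e (n := n) (d := d) hpD hp0 hp1 red hker hff
  intro F hFc hF A B D hD hA hB dA dB h1 h2 φ α β hα hβ hcj e he X hX r cls hr hnone hrel
  have hpC : (p : C) ≠ 0 := norm_pos_iff.1 hp0
  have hpO : ‖(p : C)‖ ≤ 1 := hp1.le
  set pu : Cˣ := Units.mk0 (p : C) hpC with hpu
  set Λ : Cˣ := (pu ^ (e : ℤ))⁻¹ with hΛ
  have hΛm : Λ * pu ^ (e : ℤ) ∈ GG C p 0 le_rfl one_pos := by
    rw [hΛ, inv_mul_cancel]; exact one_mem _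
  have hΛv : (Λ : C) = ((p : C) ^ e)⁻¹ := by
    rw [hΛ, Units.val_inv_eq_inv_val, Units.val_zpow_eq_zpow_val, zpow_natCast, hpu, Units.val_mk0]
  -- `κ`
  have hc1 : ‖φ (iA (cj 1))‖ ≤ 1 := psi_norm φ (cj 1)
  set cO : OO C := ⟨φ (iA (cj 1)), hc1⟩ with hcO
  set κ : OO C := cO * (p : OO C) ^ (e - 1) with hκ
  have hcoe : ((p : OO C) : C) = (p : C) := by simp
  have hκC : (p : C) * κ * Λ = φ (iA (cj 1)) := by
    have h3 : (κ : C) = φ (iA (cj 1)) * (p : C) ^ (e - 1) := by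
      rw [hκ, Subring.coe_mul, Subring.coe_pow, hcoe]
    obtain ⟨q, rfl⟩ : ∃ q, e = q + 1 := ⟨e - 1, by omega⟩
    rw [h3, hΛv, Nat.add_sub_cancel, pow_succ]
    have := pow_ne_zero q hpC
    field_simp
  have hκr : red κ ∈ FK k p ff := by
    rw [hκ, map_mul, map_pow, map_natCast]
    exact mul_mem (hcj cO rfl) (pow_mem (natCast_mem _ _) _)
  have hevO : ∀ (P : (OO C)[X]) (x : OO C), (P.map (OO C).subtype).eval (x : C) =
      ((P.eval x : OO C) : C) := fun P x => eval_map_apply (f := (OO C).subtype) x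
  have key : ∀ (A B : Fin n → (OO C)[X]), (∀ i, A i ∈ PR (FO F)) → (∀ i, B i ∈ PR (FO F)) →
      (∀ i, (A i).natDegree ≤ D i) → (∀ i, (B i).natDegree ≤ D i) →
      (∀ i, Cop red (A i) (B i) (D i) (D i)) →
      (∀ i j, i ≠ j → Cop red (A i * B i) (A j * B j) (D i + D i) (D j + D j)) →
      ∀ (α β : Fin n → QA[X]),
      (∀ i, (α i).map φ = (A i).map (OO C).subtype) →
      (∀ i, (β i).map φ = (B i).map (OO C).subtype) → ∀ s : QA, ‖φ s‖ ≤ 1 →
      (∀ i, (β i).eval s * ((p : QA) ^ e * X i) = (α i).eval s) →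
      ∃ j k : Fin n, j ≠ k ∧ (∃ c, cls j = some c ∧ cls k = some c) ∧ ∃ N : ℕ, 0 < N ∧ N ≤ bN p ff d ∧
        PsiE ιZ (mP N) (mD N) (rA (X j)) (rA (X k)) = 0 := by
    intro A B hA hB dA dB h1 h2 α β hα hβ s hs hX
    obtain ⟨𝒟, h𝒟A, h𝒟B⟩ := exists_PData hp0 hker hff hF hD hA hB dA dB h1 h2
    have hAv : ∀ i, (𝒟.A i).eval (φ s) = φ ((α i).eval s) := fun i => by
      rw [h𝒟A, ← hα, eval_map_apply]
    have hBv : ∀ i, (𝒟.B i).eval (φ s) = φ ((β i).eval s) := fun i => by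
      rw [h𝒟B, ← hβ, eval_map_apply]
    refine hG 𝒟 F hFc hF (fun i m => ?_) (fun i m => ?_) φ Λ pu e he rfl hΛm κ hκC hκr X (φ s) hs
      (exists_near hp1 φ s hs) (fun i => ?_) (fun i => ?_) r cls hr hnone hrel
    · rw [h𝒟A, coeff_map]
      exact mem_FO.1 (mem_PR.1 (hA i) m)
    · rw [h𝒟B, coeff_map]
      exact mem_FO.1 (mem_PR.1 (hB i) m)
    · intro h0
      have h3 := h0
      rw [hBv] at h3
      have h4 : (α i).eval s = 0 := by
        rw [← hX i, (map_eq_zero φ).1 h3, zero_mul]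
      have h5 := (h1 i).fin ⟨φ s, hs⟩
      have e1 : (A i).eval ⟨φ s, hs⟩ = 0 := by
        apply Subtype.ext
        rw [← hevO, ← h𝒟A]
        show (𝒟.A i).eval (φ s) = 0
        rw [hAv, h4, map_zero]
      have e2 : (B i).eval ⟨φ s, hs⟩ = 0 := by
        apply Subtype.ext
        rw [← hevO, ← h𝒟B]
        exact h0
      rw [e1, e2, map_zero] at h5
      exact h5.elim (fun h => h rfl) fun h => h rfl
    · rw [hAv, hBv, ← hX i, map_mul, map_mul, map_pow, map_natCast, hΛv]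
      have := pow_ne_zero e hpC
      field_simp
  have key2 := key (fun i => reflect (D i) (A i)) (fun i => reflect (D i) (B i))
    (fun i => reflect_mem (hA i) _) (fun i => reflect_mem (hB i) _)
    (fun i => natDegree_reflect (dA i)) (fun i => natDegree_reflect (dB i))
    (fun i => cop_reflect hker (dA i) (dB i) (h1 i))
    (fun i j hij => by
      rw [← reflect_mul _ _ (dA i) (dB i), ← reflect_mul _ _ (dA j) (dB j)]
      exact cop_reflect hker (natDegree_mul_le_of_le (dA i) (dB i))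
        (natDegree_mul_le_of_le (dA j) (dB j)) (h2 i j hij))
    (fun i => reflect (D i) (α i)) (fun i => reflect (D i) (β i))
    (fun i => by rw [← reflect_map, hα, reflect_map])
    (fun i => by rw [← reflect_map, hβ, reflect_map])
  have hdeg : ∀ {P : QA[X]} {Q : (OO C)[X]} {m : ℕ}, P.map φ = Q.map (OO C).subtype →
      Q.natDegree ≤ m → P.natDegree ≤ m := by
    intro P Q m h3 h4
    rw [← natDegree_map_eq_of_injective φ.injective, h3]
    exact natDegree_map_le.trans h4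
  rcases hX with ⟨s, hs⟩ | hX
  · by_cases hs1 : ‖φ s‖ ≤ 1
    · exact key A B hA hB dA dB h1 h2 α β hα hβ s hs1 hs
    · push Not at hs1
      have hs0 : s ≠ 0 := by
        rintro rfl
        rw [map_zero, norm_zero] at hs1
        linarith
      refine key2 s⁻¹ ?_ fun i => ?_
      · rw [map_inv₀, norm_inv]
        exact (inv_lt_one_of_one_lt₀ hs1).le
      · have h3 := hs i
        rw [← eval_reflect (hdeg (hα i) (dA i)) hs0, ← eval_reflect (hdeg (hβ i) (dB i)) hs0] at h3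
        have h4 : s ^ D i ≠ 0 := pow_ne_zero _ hs0
        apply mul_right_cancel₀ h4
        linear_combination h3
  · refine key2 0 (by rw [map_zero, norm_zero]; exact zero_le_one) fun i => ?_
    rw [← coeff_zero_eq_eval_zero, ← coeff_zero_eq_eval_zero, coeff_reflect, coeff_reflect,
      revAt_le (Nat.zero_le _), Nat.sub_zero]
    exact hX i

end Pool.Agent.Y226.ZW
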