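import Pool.Agent.Y226.ZW.CurveL

/-!
# The number of parameters with a given Tate relation
-/

set_option autoImplicit false
set_option linter.unusedSectionVars false

open UpperHalfPlane H294ZP Polynomial

namespace Pool.Agent.Y226.ZW

open Pool.Agent.Y226 Pool.Agent.Y226.ZR

variable {C : Type} [NormedField C] [IsUltrametricDist C]
variable {k : Type} [Field k]

/-- small values at separated points give zeros of the reduction -/
theorem mult_of_small (red : OO C →+* k) (hker : ∀ x : OO C, red x = 0 ↔ ‖(x : C)‖ < 1) {δ : ℝ}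
    (hδ0 : 0 < δ) (hδ1 : δ ≤ 1) (T : Finset (OO C)) : ∀ (R : (OO C)[X]) (ε : ℝ), ε < δ ^ T.card →
    (∀ t ∈ T, ∀ t' ∈ T, t ≠ t' → δ ≤ ‖(t : C) - t'‖) →
    (∀ t ∈ T, ‖((R.eval t : OO C) : C)‖ ≤ ε) → ∏ t ∈ T, (X - Polynomial.C (red t)) ∣ R.map red := by
  classical
  induction T using Finset.induction_on with
  | empty =>
    intro R ε _ _ _
    rw [Finset.prod_empty]
    exact one_dvd _
  | insert t₁ S ht₁ ih =>
    intro R ε hε hsep hsmall
    rw [Finset.card_insert_of_notMem ht₁] at hε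
    set R₁ := R /ₘ (X - Polynomial.C t₁) with hR₁
    have hdiv : Polynomial.C (R.eval t₁) + (X - Polynomial.C t₁) * R₁ = R := by
      have h := modByMonic_add_div R (X - Polynomial.C t₁)
      rwa [modByMonic_X_sub_C_eq_C_eval] at h
    have h1 : red (R.eval t₁) = 0 := by
      rw [hker]
      refine (hsmall t₁ (Finset.mem_insert_self _ _)).trans_lt (hε.trans_le ?_)
      exact pow_le_one₀ hδ0.le hδ1
    have h2 : R.map red = (X - Polynomial.C (red t₁)) * R₁.map red := by
      conv_lhs => rw [← hdiv]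
      rw [Polynomial.map_add, Polynomial.map_C, h1, C_0, zero_add, Polynomial.map_mul,
        Polynomial.map_sub, Polynomial.map_X, Polynomial.map_C]
    rw [Finset.prod_insert ht₁, h2]
    refine mul_dvd_mul_left _ (ih R₁ (ε / δ) ?_ ?_ ?_)
    · rw [div_lt_iff₀ hδ0, ← pow_succ]
      exact hε
    · intro t ht t' ht' hne
      exact hsep t (Finset.mem_insert_of_mem ht) t' (Finset.mem_insert_of_mem ht') hne
    · intro t ht
      have hne : t ≠ t₁ := fun h => ht₁ (h ▸ ht)
      have h3 := hsep t (Finset.mem_insert_of_mem ht) t₁ (Finset.mem_insert_self _ _) hne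
      have h4 : R.eval t = R.eval t₁ + (t - t₁) * R₁.eval t := by
        conv_lhs => rw [← hdiv]
        simp
      have h5 : ((t : C) - t₁) * ((R₁.eval t : OO C) : C) =
          ((R.eval t : OO C) : C) - ((R.eval t₁ : OO C) : C) := by
        rw [h4]
        push_cast
        ring
      have h6 : ‖((t : C) - t₁) * ((R₁.eval t : OO C) : C)‖ ≤ ε := by
        rw [h5]
        exact nsub_le (hsmall t (Finset.mem_insert_of_mem ht))
          (hsmall t₁ (Finset.mem_insert_self _ _))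
      rw [norm_mul] at h6
      rw [le_div_iff₀ hδ0, mul_comm]
      exact (mul_le_mul_of_nonneg_right h3 (norm_nonneg _)).trans h6

variable [CompleteSpace C] {ψ : ZZ →+* C} (hψ : ∀ z, ‖ψ z‖ ≤ 1)

include hψ

theorem cC_tail {z : C} (hz : ‖z‖ < 1) (m : ℕ) :
    ‖cC ψ z - ∑ n ∈ Finset.range (m + 1), ψ (cj n) * z ^ n‖ ≤ ‖z‖ ^ (m + 1) := by
  have h := (cC_hasSum hψ hz)
  have h2 := (hasSum_nat_add_iff' (m + 1)).2 h
  rw [← h2.tsum_eq]
  refine IsUltrametricDist.norm_tsum_le_of_forall_le_of_nonneg (by positivity) fun n => ?_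
  refine nmul_le (hψ _) ?_
  rw [norm_pow]
  exact pow_le_pow_of_le_one (norm_nonneg _) hz.le (by omega)

/-- polynomial approximations of the Tate parameter -/
theorem exists_theta (m : ℕ) : ∃ Ξ : (OO C)[X], ∀ x : C, 1 < ‖x‖ → ∀ u : OO C, (u : C) = x⁻¹ →
    ‖qT ψ x - ((((X + X ^ 2 * Ξ : (OO C)[X]).eval u : OO C)) : C)‖ ≤ (‖x‖⁻¹) ^ (m + 1) := by
  induction m with
  | zero =>
    refine ⟨0, fun x hx u hu => ?_⟩
    rw [mul_zero, add_zero, eval_X, hu, zero_add, pow_one]
    refine nsub_le (qT_norm hψ hx).le ?_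
    rw [norm_inv]
  | succ m ih =>
    obtain ⟨Ξ, hΞ⟩ := ih
    set Θ : (OO C)[X] := X + X ^ 2 * Ξ with hΘ
    let c : ℕ → OO C := fun n => ⟨ψ (cj n), hψ _⟩
    refine ⟨∑ n ∈ Finset.range m, Polynomial.C (c (n + 1)) * ((1 + X * Ξ) * Θ ^ n), ?_⟩
    intro x hx u hu
    have hx0 : x ≠ 0 := norm_pos_iff.1 (one_pos.trans hx)
    have hq := qT_eq hψ hx
    have hqn := qT_norm hψ hx
    have hq1 := qT_lt hψ hx
    have hinv1 : ‖x‖⁻¹ < 1 := inv_lt_one_of_one_lt₀ hx
    have hinv0 : 0 ≤ ‖x‖⁻¹ := inv_nonneg.2 (norm_nonneg _)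
    have h1 := hΞ x hx u hu
    set θ : C := ((Θ.eval u : OO C) : C) with hθ
    have hθ1 : ‖θ‖ ≤ 1 := (Θ.eval u).2
    -- the new approximation
    have h2 : ((((X + X ^ 2 * ∑ n ∈ Finset.range m, Polynomial.C (c (n + 1)) *
        ((1 + X * Ξ) * Θ ^ n) : (OO C)[X]).eval u : OO C)) : C) =
        x⁻¹ * ∑ n ∈ Finset.range (m + 1), ψ (cj n) * θ ^ n := by
      have e1 : (X + X ^ 2 * ∑ n ∈ Finset.range m, Polynomial.C (c (n + 1)) *
        ((1 + X * Ξ) * Θ ^ n) : (OO C)[X]) = X * (1 + ∑ n ∈ Finset.range m,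
          Polynomial.C (c (n + 1)) * Θ ^ (n + 1)) := by
        rw [mul_add, mul_one, Finset.mul_sum, Finset.mul_sum]
        congr 1
        refine Finset.sum_congr rfl fun n _ => ?_
        have e2 : Θ ^ (n + 1) = Θ ^ n * (X * (1 + X * Ξ)) := by
          rw [pow_succ]
          congr 1
          rw [hΘ]
          ring
        rw [e2]
        ring
      rw [e1, eval_mul, eval_X, eval_add, eval_one, eval_finsetSum, Subring.coe_mul, hu,
        Finset.sum_range_succ', pow_zero, mul_one, cj_zero, map_one]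
      congr 1
      rw [Subring.coe_add, Subring.coe_one, add_comm]
      congr 1
      have e3 : ∀ s : Finset ℕ, ((∑ n ∈ s, (Polynomial.C (c (n + 1)) * Θ ^ (n + 1)).eval u : OO C) : C) =
          ∑ n ∈ s, ψ (cj (n + 1)) * θ ^ (n + 1) := by
        intro s
        have e4 := map_sum (OO C).subtype
          (fun n => (Polynomial.C (c (n + 1)) * Θ ^ (n + 1)).eval u) s
        refine e4.trans (Finset.sum_congr rfl fun n _ => ?_)
        rw [eval_mul, eval_C, eval_pow]
        rfl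
      exact e3 _
    rw [h2]
    have h3 : qT ψ x = x⁻¹ * cC ψ (qT ψ x) := by
      rw [← hq]
      field_simp
    have h4 : qT ψ x - x⁻¹ * ∑ n ∈ Finset.range (m + 1), ψ (cj n) * θ ^ n =
        x⁻¹ * ((cC ψ (qT ψ x) - ∑ n ∈ Finset.range (m + 1), ψ (cj n) * qT ψ x ^ n) +
          ∑ n ∈ Finset.range (m + 1), ψ (cj n) * (qT ψ x ^ n - θ ^ n)) := by
      have h5 : ∑ n ∈ Finset.range (m + 1), ψ (cj n) * (qT ψ x ^ n - θ ^ n) =
          ∑ n ∈ Finset.range (m + 1), ψ (cj n) * qT ψ x ^ n -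
          ∑ n ∈ Finset.range (m + 1), ψ (cj n) * θ ^ n := by
        rw [← Finset.sum_sub_distrib]
        exact Finset.sum_congr rfl fun n _ => by ring
      rw [h5]
      linear_combination h3
    rw [h4, norm_mul, norm_inv, pow_succ' _ (m + 1)]
    refine mul_le_mul_of_nonneg_left (nadd_le ?_ ?_) hinv0
    · rw [← hqn]
      exact cC_tail hψ hq1 m
    · refine nsum_le _ _ (by positivity) fun n _ => nmul_le (hψ _) ?_
      exact npow_sub_pow hq1.le hθ1 h1 n

end Pool.Agent.Y226.ZW
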