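import Pool.Agent.Y226.ZW.Disc

/-!
# The number of parameters with a given Tate relation: the bound
-/

set_option autoImplicit false
set_option linter.unusedSectionVars false

open UpperHalfPlane H294ZP Polynomial

namespace Pool.Agent.Y226.ZW

open Pool.Agent.Y226 Pool.Agent.Y226.ZR

theorem exists_delta {ι : Type} (S : Finset ι) (f : ι → ℝ) (hf : ∀ x ∈ S, 0 < f x) :
    ∃ δ : ℝ, 0 < δ ∧ δ ≤ 1 ∧ ∀ x ∈ S, δ ≤ f x := by
  classical
  induction S using Finset.induction_on with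
  | empty => exact ⟨1, one_pos, le_rfl, fun x hx => absurd hx (Finset.notMem_empty x)⟩
  | insert a S ha ih =>
    obtain ⟨δ, h1, h2, h3⟩ := ih fun x hx => hf x (Finset.mem_insert_of_mem hx)
    refine ⟨min δ (f a), lt_min h1 (hf a (Finset.mem_insert_self _ _)),
      (min_le_left _ _).trans h2, fun x hx => ?_⟩
    rcases Finset.mem_insert.1 hx with rfl | hx
    · exact min_le_right _ _
    · exact (min_le_left _ _).trans (h3 x hx)

variable {C : Type} [NormedField C] [IsUltrametricDist C] [CompleteSpace C]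
variable {p : ℕ} [hpf : Fact p.Prime]
variable {k : Type} [Field k] [CharP k p]

/-- the homogenized approximation -/
noncomputable def hom (π : OO C) (Ξ a b : (OO C)[X]) : (OO C)[X] :=
  b * a ^ (Ξ.natDegree + 1) + Polynomial.C π * b ^ 2 *
    ∑ i ∈ Finset.range (Ξ.natDegree + 1), Polynomial.C (Ξ.coeff i * π ^ i) * b ^ i *
      a ^ (Ξ.natDegree - i)

theorem hom_red (red : OO C →+* k) {π : OO C} (hπ : red π = 0) (Ξ a b : (OO C)[X]) :
    (hom π Ξ a b).map red = b.map red * a.map red ^ (Ξ.natDegree + 1) := by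
  unfold hom
  rw [Polynomial.map_add, Polynomial.map_mul, Polynomial.map_pow, Polynomial.map_mul,
    Polynomial.map_mul, Polynomial.map_C, hπ, C_0, zero_mul, zero_mul, add_zero]

theorem hom_eval {Λ : C} (hΛ : Λ ≠ 0) {π : OO C} (hπ : (π : C) = Λ⁻¹) (Ξ a b : (OO C)[X])
    (t u : OO C) (h : ((b.eval t : OO C) : C) = Λ * u * ((a.eval t : OO C) : C)) :
    (((hom π Ξ a b).eval t : OO C) : C) = ((a.eval t : OO C) : C) ^ (Ξ.natDegree + 2) * Λ *
      (((X + X ^ 2 * Ξ : (OO C)[X]).eval u : OO C) : C) := by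
  set A : C := ((a.eval t : OO C) : C) with hA
  have hsum : ∀ (s : Finset ℕ) (g : ℕ → OO C), ((∑ i ∈ s, g i : OO C) : C) = ∑ i ∈ s, (g i : C) :=
    fun s g => map_sum (OO C).subtype g s
  have e1 : (((X + X ^ 2 * Ξ : (OO C)[X]).eval u : OO C) : C) =
      (u : C) + (u : C) ^ 2 * ∑ i ∈ Finset.range (Ξ.natDegree + 1), (Ξ.coeff i : C) * (u : C) ^ i := by
    rw [eval_add, eval_mul, eval_pow, eval_X, eval_eq_sum_range, Subring.coe_add, Subring.coe_mul,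
      Subring.coe_pow, hsum]
    congr 2
  have e2 : (((hom π Ξ a b).eval t : OO C) : C) = ((b.eval t : OO C) : C) * A ^ (Ξ.natDegree + 1) +
      (π : C) * ((b.eval t : OO C) : C) ^ 2 * ∑ i ∈ Finset.range (Ξ.natDegree + 1),
        (Ξ.coeff i : C) * (π : C) ^ i * ((b.eval t : OO C) : C) ^ i * A ^ (Ξ.natDegree - i) := by
    unfold hom
    rw [eval_add, eval_mul, eval_pow, eval_mul, eval_mul, eval_C, eval_pow, eval_finsetSum,
      Subring.coe_add, Subring.coe_mul, Subring.coe_mul, Subring.coe_mul, Subring.coe_pow,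
      Subring.coe_pow, hsum]
    congr 2
    refine Finset.sum_congr rfl fun i _ => ?_
    rw [eval_mul, eval_mul, eval_C, eval_pow, eval_pow]
    rfl
  rw [e2, e1, h, hπ, mul_add, Finset.mul_sum, Finset.mul_sum, Finset.mul_sum]
  congr 1
  · ring
  · refine Finset.sum_congr rfl fun i hi => ?_
    have hi' := Nat.lt_succ_iff.1 (Finset.mem_range.1 hi)
    have e3 : A ^ Ξ.natDegree = A ^ i * A ^ (Ξ.natDegree - i) := by
      rw [← pow_add, Nat.add_sub_cancel' hi']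
    have e4 : (Λ⁻¹) ^ i * Λ ^ i = 1 := by
      rw [← mul_pow, inv_mul_cancel₀ hΛ, one_pow]
    have e5 : Λ⁻¹ * Λ = 1 := inv_mul_cancel₀ hΛ
    calc Λ⁻¹ * (Λ * ↑u * A) ^ 2 * (↑(Ξ.coeff i) * Λ⁻¹ ^ i * (Λ * ↑u * A) ^ i *
          A ^ (Ξ.natDegree - i))
        = (Λ⁻¹ * Λ) * ((Λ⁻¹) ^ i * Λ ^ i) * (A ^ 2 * (A ^ i * A ^ (Ξ.natDegree - i)) * Λ *
          (↑u ^ 2 * (↑(Ξ.coeff i) * ↑u ^ i))) := by rw [mul_pow, mul_pow, mul_pow, mul_pow]; ring
      _ = _ := by rw [e4, e5, ← e3]; ring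

variable {ψ : ZZ →+* C} (hψ : ∀ z, ‖ψ z‖ ≤ 1)
variable {n d : ℕ} (𝒟 : PData C p n d)

include hψ

/-- at most `2 d` parameters satisfy a given relation -/
theorem disc_count (red : OO C →+* k) (hker : ∀ x : OO C, red x = 0 ↔ ‖(x : C)‖ < 1) {Λ : Cˣ}
    (hΛ : 1 < ‖(Λ : C)‖) {j l : Fin n} (hjl : j ≠ l) {ζ : OO C} (hζ : ‖(ζ : C)‖ = 1)
    (T : Finset (OO C)) (hT : ∀ t ∈ T, 𝒟.Good (t : C) j ∧ 𝒟.Good (t : C) l ∧ ∀ xj xl : C,
      (𝒟.B j).eval (t : C) * xj = Λ * (𝒟.A j).eval (t : C) →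
      (𝒟.B l).eval (t : C) * xl = Λ * (𝒟.A l).eval (t : C) → qT ψ xl = ζ * qT ψ xj) :
    T.card ≤ 2 * d := by
  classical
  have hΛ0 : (Λ : C) ≠ 0 := Λ.ne_zero
  have hinv1 : ‖(Λ : C)‖⁻¹ < 1 := inv_lt_one_of_one_lt₀ hΛ
  have hinv0 : 0 < ‖(Λ : C)‖⁻¹ := inv_pos.2 (one_pos.trans hΛ)
  set π : OO C := ⟨(Λ : C)⁻¹, by rw [mem_OO, norm_inv]; exact hinv1.le⟩ with hπ
  have hπr : red π = 0 := by
    rw [hker]
    show ‖(Λ : C)⁻¹‖ < 1
    rw [norm_inv]
    exact hinv1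
  -- the separation of the points
  obtain ⟨δ, hδ0, hδ1, hδ⟩ := exists_delta ((T ×ˢ T).filter fun q => q.1 ≠ q.2)
    (fun q => ‖(q.1 : C) - q.2‖) (fun q hq => by
      rw [Finset.mem_filter] at hq
      exact norm_pos_iff.2 (sub_ne_zero.2 fun h => hq.2 (Subtype.ext h)))
  obtain ⟨m, hm⟩ := exists_pow_lt_of_lt_one (pow_pos hδ0 T.card) hinv1
  obtain ⟨Ξ, hΞ⟩ := exists_theta hψ m
  set L := Ξ.natDegree with hL
  set R : (OO C)[X] := Polynomial.C ζ * (𝒟.aO l) ^ (L + 2) * hom π Ξ (𝒟.aO j) (𝒟.bO j) -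
    (𝒟.aO j) ^ (L + 2) * hom π Ξ (𝒟.aO l) (𝒟.bO l) with hR
  -- the values of the polynomial
  have hval : ∀ t ∈ T, ‖((R.eval t : OO C) : C)‖ ≤ ‖(Λ : C)‖⁻¹ ^ m := by
    intro t ht
    obtain ⟨hgj, hgl, hrel⟩ := hT t ht
    have key : ∀ i, 𝒟.Good (t : C) i → ∃ (x : C) (u : OO C),
        (𝒟.B i).eval (t : C) * x = Λ * (𝒟.A i).eval (t : C) ∧
        (((hom π Ξ (𝒟.aO i) (𝒟.bO i)).eval t : OO C) : C) = (𝒟.A i).eval (t : C) ^ (L + 2) * Λ *
          (((X + X ^ 2 * Ξ : (OO C)[X]).eval u : OO C) : C) ∧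
        ‖qT ψ x - (((X + X ^ 2 * Ξ : (OO C)[X]).eval u : OO C) : C)‖ ≤ (‖(Λ : C)‖⁻¹) ^ (m + 1) := by
      intro i hi
      have hA0 : (𝒟.A i).eval (t : C) ≠ 0 := norm_pos_iff.1 (by rw [hi.1]; exact one_pos)
      have hB0 : (𝒟.B i).eval (t : C) ≠ 0 := norm_pos_iff.1 (by rw [hi.2]; exact one_pos)
      set x : C := Λ * (𝒟.A i).eval (t : C) * ((𝒟.B i).eval (t : C))⁻¹ with hx
      have hxn : ‖x‖ = ‖(Λ : C)‖ := by
        rw [hx, norm_mul, norm_mul, norm_inv, hi.1, hi.2, inv_one, mul_one, mul_one]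
      have hx1 : 1 < ‖x‖ := by rw [hxn]; exact hΛ
      set u : OO C := ⟨x⁻¹, by rw [mem_OO, norm_inv, hxn]; exact hinv1.le⟩ with hu
      refine ⟨x, u, ?_, ?_, ?_⟩
      · rw [hx]
        field_simp
      · rw [← 𝒟.aO_eval]
        refine hom_eval hΛ0 rfl Ξ _ _ t u ?_
        rw [𝒟.aO_eval, 𝒟.bO_eval]
        show _ = (Λ : C) * x⁻¹ * _
        rw [hx]
        field_simp
      · have := hΞ x hx1 u rfl
        rwa [hxn] at this
    obtain ⟨xj, uj, h1, h2, h3⟩ := key j hgj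
    obtain ⟨xl, ul, h1', h2', h3'⟩ := key l hgl
    have hq := hrel xj xl h1 h1'
    set θj := (((X + X ^ 2 * Ξ : (OO C)[X]).eval uj : OO C) : C) with hθj
    set θl := (((X + X ^ 2 * Ξ : (OO C)[X]).eval ul : OO C) : C) with hθl
    have e1 : ((R.eval t : OO C) : C) = ((𝒟.A j).eval (t : C) * (𝒟.A l).eval (t : C)) ^ (L + 2) *
        (Λ * ((qT ψ xl - θl) - ζ * (qT ψ xj - θj))) := by
      rw [hR, eval_sub, eval_mul, eval_mul, eval_C, eval_pow, eval_mul, eval_pow]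
      push_cast
      rw [h2, h2', 𝒟.aO_eval, 𝒟.aO_eval, hq, mul_pow]
      ring
    rw [e1, norm_mul, norm_pow, norm_mul, hgj.1, hgl.1, mul_one, one_pow, one_mul, norm_mul]
    calc ‖(Λ : C)‖ * ‖(qT ψ xl - θl) - ζ * (qT ψ xj - θj)‖
        ≤ ‖(Λ : C)‖ * (‖(Λ : C)‖⁻¹) ^ (m + 1) := by
          refine mul_le_mul_of_nonneg_left (nsub_le h3' (nmul_le hζ.le h3)) (norm_nonneg _)
      _ = ‖(Λ : C)‖⁻¹ ^ m := by
          rw [pow_succ]
          have : ‖(Λ : C)‖ ≠ 0 := (one_pos.trans hΛ).ne'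
          field_simp
  -- the reduction
  have hdvd := mult_of_small red hker hδ0 hδ1 T R _ hm (fun t ht t' ht' hne =>
    hδ (t, t') (Finset.mem_filter.2 ⟨Finset.mem_product.2 ⟨ht, ht'⟩, hne⟩)) hval
  set S : k[X] := Polynomial.C (red ζ) * (𝒟.bO j * 𝒟.aO l).map red -
    (𝒟.aO j * 𝒟.bO l).map red with hS
  have hRr : R.map red = ((𝒟.aO j).map red * (𝒟.aO l).map red) ^ (L + 1) * S := by
    rw [hR, Polynomial.map_sub, Polynomial.map_mul, Polynomial.map_mul, Polynomial.map_mul,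
      hom_red red hπr, hom_red red hπr, Polynomial.map_C, Polynomial.map_pow, Polynomial.map_pow,
      hS, Polynomial.map_mul, Polynomial.map_mul, ← hL]
    ring
  rw [hRr] at hdvd
  have hcop : IsCoprime (∏ t ∈ T, (X - Polynomial.C (red t)))
      (((𝒟.aO j).map red * (𝒟.aO l).map red) ^ (L + 1)) := by
    refine IsCoprime.prod_left fun t ht => IsCoprime.pow_right ?_
    obtain ⟨hgj, hgl, -⟩ := hT t ht
    rw [(irreducible_X_sub_C (red t)).coprime_iff_not_dvd, dvd_iff_isRoot, IsRoot.def, eval_mul,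
      eval_map_apply, eval_map_apply]
    refine mul_ne_zero (PData.red_ne red hker ?_) (PData.red_ne red hker ?_)
    · rw [𝒟.aO_eval]; exact hgj.1
    · rw [𝒟.aO_eval]; exact hgl.1
  have hdvd' := hcop.dvd_of_dvd_mul_left hdvd
  have hζr : red ζ ≠ 0 := PData.red_ne red hker hζ
  have hS0 : S ≠ 0 := by
    intro h0
    obtain ⟨x₀, hx, -⟩ := 𝒟.exists_excl red hker j
    have h1 := congrArg (Polynomial.eval x₀) h0
    rw [hS, eval_sub, eval_mul, eval_C, eval_zero, sub_eq_zero] at h1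
    rcases hx j l hjl (Or.inl rfl) with ⟨h2, h3⟩ | ⟨h2, h3⟩
    · rw [h2, mul_zero] at h1
      exact h3 h1.symm
    · rw [h3] at h1
      exact (mul_ne_zero hζr h2) h1
  have hdeg : (∏ t ∈ T, (X - Polynomial.C (red t))).natDegree = T.card := by
    rw [natDegree_prod_of_monic _ _ fun t _ => monic_X_sub_C _]
    simp
  rw [← hdeg]
  refine (natDegree_le_of_dvd hdvd' hS0).trans ?_
  rw [hS]
  refine natDegree_sub_le_of_le' ?_ (𝒟.VV_deg red j l)
  exact (natDegree_C_mul_le _ _).trans (𝒟.UU_deg red j l)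

end Pool.Agent.Y226.ZW
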