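import Pool.Agent.Y226.ZR.Main
import Pool.Agent.Y226.ZW.CurveC
import Pool.Agent.Y226.ZW.Cj

/-!
# Explicit uniform finiteness for rational curves
-/

set_option autoImplicit false
set_option linter.unusedSectionVars false

open UpperHalfPlane H294ZP Polynomial

namespace Pool.Agent.Y226.ZR

open Pool.Agent.Y226 Pool.Agent.Y226.ZM Pool.Agent.Y226.ZU Pool.Agent.Y226.ZG Pool.Agent.Y226.ZW


variable {C : Type} [NormedField C] [IsUltrametricDist C] [CompleteSpace C] [CharZero C]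
  [IsAlgClosed C]
variable {p : ℕ} [hpf : Fact p.Prime]
variable {k : Type} [Field k] [CharP k p]

theorem main_e {n d : ℕ} (hpD : 16 * (d + 1) ^ 4 < p) (hp0 : 0 < ‖(p : C)‖)
    (hp1 : ‖(p : C)‖ < 1) (red : OO C →+* k)
    (hker : ∀ x : OO C, red x = 0 ↔ ‖(x : C)‖ < 1) {ff : ℕ} (hff : 0 < ff) :
    ∀ F : Subfield C, IsClosed (F : Set C) → Un p F ff →
      ∀ (A B : Fin n → (OO C)[X]) (D : Fin n → ℕ), (∀ i, 0 < D i ∧ D i ≤ d) →
      (∀ i, A i ∈ PR (FO F)) → (∀ i, B i ∈ PR (FO F)) →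
      (∀ i, (A i).natDegree ≤ D i) → (∀ i, (B i).natDegree ≤ D i) →
      (∀ i, Cop red (A i) (B i) (D i) (D i)) →
      (∀ i j, i ≠ j → Cop red (A i * B i) (A j * B j) (D i + D i) (D j + D j)) →
      ∀ (φ : QA →+* C) (α β : Fin n → QA[X]),
      (∀ i, (α i).map φ = (A i).map (OO C).subtype) →
      (∀ i, (β i).map φ = (B i).map (OO C).subtype) →
      (∀ cO : OO C, (cO : C) = φ (iA (cj 1)) → red cO ∈ FK k p ff) →
      ∀ Γ : Finset ℂ, (∀ γ ∈ Γ, ∃ c : QA, rA c = γ ∧ ‖φ c‖ ≤ 1) →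
      ∀ e : ℕ, 0 < e → ∀ 𝒬 : QF n, 𝒬.D = D → 𝒬.α = α →
      (𝒬.β = fun i => Polynomial.C ((p : QA) ^ e) * β i) →
      (∀ x ∈ 𝒬.Pts, ∀ (r : ℕ) (Z : SV (Γ : Set ℂ) n r), r + 2 ≤ n → x ∈ Z.locus →
        ∃ j l : Fin n, j ≠ l ∧ ∃ N : ℕ, 0 < N ∧ N ≤ bN p ff d ∧ Isog N (x j) (x l)) ∧
      {x | x ∈ 𝒬.Pts ∧ ∃ (r : ℕ) (Z : SV (Γ : Set ℂ) n r), r + 2 ≤ n ∧ x ∈ Z.locus}.Finite ∧
      {x | x ∈ 𝒬.Pts ∧ ∃ (r : ℕ) (Z : SV (Γ : Set ℂ) n r), r + 2 ≤ n ∧ x ∈ Z.locus}.ncard ≤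
        2 * (mN n d p * (2 * d)) ∧
      ∀ (r : ℕ) (Z : SV (Γ : Set ℂ) n r), r < n → ¬ 𝒬.Pts ⊆ Z.locus := by
  classical
  have hG₀ := curve_local_e (n := n) (d := d) hpD hp0 hp1 red hker hff
  have hG₁ := curve_count (n := n) (d := d) hpD hp0 hp1 red hker hff
  set G₀ := bN p ff d with hG₀d
  intro F hFc hF A B D hD hA hB dA dB h1 h2 φ α β hα hβ hcj Γ hΓ e he 𝒬 hQD hQα hQβ
  have hΓa : ∀ γ ∈ Γ, IsAlgebraic ℚ γ := by
    intro γ hγ
    obtain ⟨c, hc, -⟩ := hΓ γ hγ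
    rw [← hc]
    exact mem_QA.1 c.2
  have hXex : ∀ x ∈ 𝒬.Pts, ∀ (r : ℕ) (Z : SV (Γ : Set ℂ) n r), r + 2 ≤ n → x ∈ Z.locus →
      ∃ X : Fin n → QA, (∀ i, rA (X i) = x i) ∧
      ((∃ s : QA, ∀ i, (β i).eval s * ((p : QA) ^ e * X i) = (α i).eval s) ∨
        ∀ i, (β i).coeff (D i) * ((p : QA) ^ e * X i) = (α i).coeff (D i)) ∧
      (∀ i, Z.cls i = none → ‖φ (X i)‖ ≤ 1) ∧
      (∀ (j l : Fin n) (c : Fin r), Z.cls j = some c → Z.cls l = some c →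
        ∃ (w w' : ℍ) (a b c' d' : ℤ), 0 < a * d' - b * c' ∧ (w' : ℂ) * (c' * w + d') = a * w + b ∧
          rA (X j) = jj w ∧ rA (X l) = jj w') := by
    intro x hx r Z hr hZ
    -- the coordinates are algebraic
    obtain ⟨X, hXx, hX⟩ : ∃ X : Fin n → QA, (∀ i, rA (X i) = x i) ∧
        ((∃ s : QA, ∀ i, (β i).eval s * ((p : QA) ^ e * X i) = (α i).eval s) ∨
        ∀ i, (β i).coeff (D i) * ((p : QA) ^ e * X i) = (α i).coeff (D i)) := by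
      rcases hx with ⟨τ, hτ⟩ | hinf
      · obtain ⟨g, hg, hg'⟩ := 𝒬.exists_eqn hΓa Z (by omega)
        obtain ⟨s, rfl⟩ := root_algebraic hg (hg' τ x hτ hZ)
        have hβs : ∀ i, (𝒬.β i).eval s ≠ 0 := fun i h0 => by
          apply 𝒬.β_ne hτ i
          rw [ev_rA, h0, map_zero]
        refine ⟨fun i => (𝒬.α i).eval s / (𝒬.β i).eval s, fun i => ?_, Or.inl ⟨s, fun i => ?_⟩⟩
        · rw [map_div₀, ← ev_rA, ← ev_rA, ← hτ i]
          have := 𝒬.β_ne hτ i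
          field_simp
        · have h3 := hβs i
          rw [← hQα]
          have h4 : (𝒬.β i).eval s = (p : QA) ^ e * (β i).eval s := by
            rw [hQβ, eval_mul, eval_C]
          rw [← mul_assoc, mul_comm ((β i).eval s), ← h4]
          field_simp
      · have hc : ∀ i, (𝒬.β i).coeff (𝒬.D i) ≠ 0 := by
          intro i h0
          have h3 := hinf i
          rw [h0, map_zero, zero_mul] at h3
          rcases (𝒬.c1 i).inf with h4 | h4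
          · exact h4 ((map_eq_zero rA).1 h3.symm)
          · exact h4 h0
        refine ⟨fun i => (𝒬.α i).coeff (𝒬.D i) / (𝒬.β i).coeff (𝒬.D i), fun i => ?_,
          Or.inr fun i => ?_⟩
        · have h3 : rA ((𝒬.β i).coeff (𝒬.D i)) ≠ 0 := (map_ne_zero rA).2 (hc i)
          rw [map_div₀, ← hinf i]
          field_simp
        · have h3 := hc i
          rw [← hQα, ← hQD]
          have h4 : (𝒬.β i).coeff (𝒬.D i) = (p : QA) ^ e * (β i).coeff (𝒬.D i) := by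
            rw [hQβ, coeff_C_mul]
          rw [← mul_assoc, mul_comm ((β i).coeff (𝒬.D i)), ← h4]
          field_simp
    refine ⟨X, hXx, hX, ?_, ?_⟩
    · intro i hi
      refine norm_le_one_of_adjoin (Γ := (Γ : Set ℂ)) φ (fun γ hγ => hΓ γ hγ) ?_
      have h3 : rA (X i) = Z.const i := by
        rw [hXx]
        obtain ⟨z, hz⟩ := hZ
        exact (hz i).1 hi
      rw [h3]
      exact Z.int i
    · intro j l c hcj hcl
      obtain ⟨a', b', c', d', hdet, hrel⟩ := Z.rel_unif hcj hcl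
      obtain ⟨w, w', hww, hw, hw'⟩ := hrel _ hZ
      exact ⟨w, w', a', b', c', d', hdet, hww, by rw [hXx, hw], by rw [hXx, hw']⟩
  have hcov : ∀ x ∈ 𝒬.Pts, ∀ (r : ℕ) (Z : SV (Γ : Set ℂ) n r), r + 2 ≤ n → x ∈ Z.locus →
      ∃ j l : Fin n, j ≠ l ∧ ∃ N : ℕ, 0 < N ∧ N ≤ G₀ ∧ Isog N (x j) (x l) := by
    intro x hx r Z hr hZ
    obtain ⟨X, hXx, hX, hX1, hX2⟩ := hXex x hx r Z hr hZ
    obtain ⟨j, l, hjl, ⟨c, hcj', hcl⟩, N, hN0, hN, hΨ⟩ := hG₀ F hFc hF A B D hD hA hB dA dB h1 h2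
      φ α β hα hβ hcj e he X hX r Z.cls hr hX1 hX2
    rw [hXx, hXx] at hΨ
    refine ⟨j, l, hjl, N, hN0, hN, ?_⟩
    obtain ⟨a', b', c', d', hdet, hrel⟩ := Z.rel_unif hcj' hcl
    obtain ⟨w, w', -, hw, -⟩ := hrel _ hZ
    rw [hw] at hΨ ⊢
    exact isog_of_psi hN0 hΨ
  -- all finite sets of atypical points are bounded
  set 𝒮 : Set (Fin n → ℂ) :=
    {x | x ∈ 𝒬.Pts ∧ ∃ (r : ℕ) (Z : SV (Γ : Set ℂ) n r), r + 2 ≤ n ∧ x ∈ Z.locus} with h𝒮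
  have hbd : ∀ T : Finset (Fin n → ℂ), (T : Set (Fin n → ℂ)) ⊆ 𝒮 →
      T.card ≤ 2 * (mN n d p * (2 * d)) := by
    intro T hT
    have hch : ∀ x : Fin n → ℂ, ∃ X : Fin n → QA, x ∈ T → (∀ i, rA (X i) = x i) ∧
      ((∃ s : QA, ∀ i, (β i).eval s * ((p : QA) ^ e * X i) = (α i).eval s) ∨
        ∀ i, (β i).coeff (D i) * ((p : QA) ^ e * X i) = (α i).coeff (D i)) ∧
      ∃ (r : ℕ) (cls : Fin n → Option (Fin r)), r + 2 ≤ n ∧
      (∀ i, cls i = none → ‖φ (X i)‖ ≤ 1) ∧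
      (∀ (j l : Fin n) (c : Fin r), cls j = some c → cls l = some c →
        ∃ (w w' : ℍ) (a b c' d' : ℤ), 0 < a * d' - b * c' ∧ (w' : ℂ) * (c' * w + d') = a * w + b ∧
          rA (X j) = jj w ∧ rA (X l) = jj w') := by
      intro x
      by_cases hx : x ∈ T
      · obtain ⟨hx1, r, Z, hr, hZ⟩ := hT hx
        obtain ⟨X, hXx, hX, hX1, hX2⟩ := hXex x hx1 r Z hr hZ
        exact ⟨X, fun _ => ⟨hXx, hX, r, Z.cls, hr, hX1, hX2⟩⟩
      · exact ⟨0, fun h => absurd h hx⟩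
    choose X hX using hch
    have hinj : Set.InjOn X T := by
      intro x hx y hy hxy
      funext i
      rw [← (hX x hx).1 i, ← (hX y hy).1 i, hxy]
    rw [← Finset.card_image_of_injOn hinj]
    refine hG₁ F hFc hF A B D hD hA hB dA dB h1 h2 φ α β hα hβ hcj e he _ fun Y hY => ?_
    obtain ⟨x, hx, rfl⟩ := Finset.mem_image.1 hY
    exact (hX x hx).2
  have hfin : 𝒮.Finite := by
    by_contra hinf
    obtain ⟨T, hT, hc⟩ := Set.Infinite.exists_subset_card_eq hinf (2 * (mN n d p * (2 * d)) + 1)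
    have := hbd T hT
    omega
  refine ⟨hcov, hfin, ?_, fun r Z hr => 𝒬.not_sub hΓa Z hr⟩
  rw [Set.ncard_eq_toFinset_card 𝒮 hfin]
  exact hbd _ (by rw [Set.Finite.coe_toFinset])

end Pool.Agent.Y226.ZR
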