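import Pool.Agent.Y226.ZU.NF

/-!
# Unramified places with a given residue field
-/

set_option autoImplicit false
set_option linter.unusedSectionVars false

open UpperHalfPlane H294ZP Polynomial IsDedekindDomain NumberField WithZero

namespace Pool.Agent.Y226.ZW

open Pool.Agent.Y226 Pool.Agent.Y226.ZG

variable {C : Type} [NormedField C] [IsUltrametricDist C] [CompleteSpace C] [CharZero C]
  [IsAlgClosed C] {p : ℕ} [hpf : Fact p.Prime] {K : Type} [Field K] [NumberField K]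
variable {v : HeightOneSpectrum (𝓞 K)} {ι : K →+* C}

theorem residue_pow_f {f : ℕ} (hB : Nat.card (𝓞 K ⧸ v.asIdeal) = p ^ f)
    (z : 𝓞 K ⧸ v.asIdeal) : z ^ p ^ f = z := by
  haveI := v.isMaximal
  letI : Field (𝓞 K ⧸ v.asIdeal) := Ideal.Quotient.field v.asIdeal
  haveI : Finite (𝓞 K ⧸ v.asIdeal) := inferInstance
  letI := Fintype.ofFinite (𝓞 K ⧸ v.asIdeal)
  rw [← hB, Nat.card_eq_fintype_card]
  exact FiniteField.pow_card z

theorem unr_range_f (hp0 : 0 < ‖(p : C)‖) (hp1 : ‖(p : C)‖ < 1) (hpv : (p : 𝓞 K) ∈ v.asIdeal)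
    (hpv2 : (p : 𝓞 K) ∉ v.asIdeal ^ 2)
    (hι : ∀ x : 𝓞 K, ‖ι (algebraMap (𝓞 K) K x)‖ < 1 ↔ x ∈ v.asIdeal) {f : ℕ}
    (hB : Nat.card (𝓞 K ⧸ v.asIdeal) = p ^ f) : Unr p ι.fieldRange f := by
  rintro _ ⟨x, rfl⟩ hx
  set q := p ^ f with hq
  by_cases hx0 : x = 0
  · have hq0 : q ≠ 0 := (pow_pos hpf.out.pos _).ne'
    rw [hx0, map_zero, zero_pow hq0, sub_zero, norm_zero]
    exact hp0.le
  have hv0 : v.valuation K x ≠ 0 := (Valuation.ne_zero_iff _).2 hx0
  have hv' := (exp_log hv0).symm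
  have hle : v.valuation K x ≤ 1 := by
    rw [hv', ← exp_zero, exp_le_exp]
    rw [norm_of_val hp0 hpv hpv2 hι hv'] at hx
    by_contra hcon
    push Not at hcon
    have h1 : 1 < ‖(p : C)‖ ^ (-log (v.valuation K x)) := by
      rw [zpow_neg]
      refine (one_lt_inv₀ (zpow_pos hp0 _)).2 ?_
      obtain ⟨m, hm⟩ := Int.eq_ofNat_of_zero_le hcon.le
      rw [hm, zpow_natCast]
      exact pow_lt_one₀ (norm_nonneg _) hp1 (by omega)
    linarith
  obtain ⟨n, d, hnd⟩ := v.exists_primeCompl_mul_eq_of_integer x hle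
  have hd : (d : 𝓞 K) ∉ v.asIdeal := d.2
  have hd1 := norm_unit hι hd
  have hz : n ^ q * (d : 𝓞 K) - n * (d : 𝓞 K) ^ q ∈ v.asIdeal := by
    rw [← Ideal.Quotient.eq_zero_iff_mem, map_sub, map_mul, map_mul, map_pow, map_pow,
      residue_pow_f hB, residue_pow_f hB, sub_self]
  have hz2 : ‖ι (algebraMap (𝓞 K) K (n ^ q * (d : 𝓞 K) - n * (d : 𝓞 K) ^ q))‖ ≤ ‖(p : C)‖ := by
    have h1 : v.valuation K (algebraMap (𝓞 K) K (n ^ q * (d : 𝓞 K) - n * (d : 𝓞 K) ^ q)) <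
        v.valuation K (1 : K) := by
      rw [map_one]
      exact (HeightOneSpectrum.valuation_lt_one_iff_mem (K := K) v _).2 hz
    have h2 := norm_le_of_val hp0 hp1 hpv hpv2 hι h1
    rwa [map_one, norm_one, mul_one] at h2
  have hrel : (ι x ^ q - ι x) * ι (algebraMap (𝓞 K) K (d : 𝓞 K)) ^ (q + 1) =
      ι (algebraMap (𝓞 K) K (n ^ q * (d : 𝓞 K) - n * (d : 𝓞 K) ^ q)) := by
    have h1 := congrArg ι hnd
    rw [map_mul] at h1
    rw [map_sub, map_mul, map_mul, map_pow, map_pow, map_sub, map_mul, map_mul, map_pow, map_pow,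
      ← h1]
    ring
  have h3 := congrArg norm hrel
  rw [norm_mul, norm_pow, hd1, one_pow, mul_one] at h3
  rw [h3]
  exact hz2

end Pool.Agent.Y226.ZW
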