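import Pool.Agent.Y226.ZR.NFm
import Pool.Agent.Y226.ZW.Main
import Pool.Agent.Y226.ZW.NF

/-!
# Explicit bounds for rational curves over number fields
-/

set_option autoImplicit false
set_option linter.unusedSectionVars false

open UpperHalfPlane H294ZP Polynomial IsDedekindDomain NumberField

namespace Pool.Agent.Y226.ZR

open Pool.Agent.Y226 Pool.Agent.Y226.ZM Pool.Agent.Y226.ZU Pool.Agent.Y226.ZG Pool.Agent.Y226.ZW

variable {C : Type} [NormedField C] [IsUltrametricDist C] [CompleteSpace C] [CharZero C]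
  [IsAlgClosed C]
variable {p : ℕ} [hpf : Fact p.Prime]

theorem main_k_e {n d : ℕ} (hpD : 16 * (d + 1) ^ 4 < p) (hp0 : 0 < ‖(p : C)‖)
    (hp1 : ‖(p : C)‖ < 1) {f : ℕ} (hf : 0 < f) :
    ∀ (K : Type) [Field K] (σ : K →+* ℂ) (σ' : K →+* QA) (ι : K →+* C) (φ : QA →+* C),
      (∀ x, rA (σ' x) = σ x) → (∀ x, φ (σ' x) = ι x) → Unr p ι.fieldRange f →
      ∀ (D : Fin n → ℕ) (a b : Fin n → K[X]), (∀ i, 0 < D i ∧ D i ≤ d) → GoodC ι D a b →
      ∀ Γ : Finset ℂ, (∀ γ ∈ Γ, ∃ m : ℕ, ¬ p ∣ m ∧ IsIntegral ℤ ((m : ℂ) * γ)) →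
      ∀ (lam : Fin n → K) (e : ℕ), 0 < e → (∀ i, ‖ι (lam i)‖ = ‖(p : C)‖⁻¹ ^ e) →
      (∀ x ∈ crvK σ D lam a b, ∀ (r : ℕ) (Z : SV (Γ : Set ℂ) n r), r + 2 ≤ n → x ∈ Z.locus →
        ∃ j l : Fin n, j ≠ l ∧ ∃ N : ℕ, 0 < N ∧ N ≤ bN p f d ∧ Isog N (x j) (x l)) ∧
      {x | x ∈ crvK σ D lam a b ∧
        ∃ (r : ℕ) (Z : SV (Γ : Set ℂ) n r), r + 2 ≤ n ∧ x ∈ Z.locus}.Finite ∧
      {x | x ∈ crvK σ D lam a b ∧
        ∃ (r : ℕ) (Z : SV (Γ : Set ℂ) n r), r + 2 ≤ n ∧ x ∈ Z.locus}.ncard ≤
        2 * (mN n d p * (2 * d)) ∧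
      ∀ (r : ℕ) (Z : SV (Γ : Set ℂ) n r), r < n → ¬ crvK σ D lam a b ⊆ Z.locus := by
  classical
  obtain ⟨k, _, _, _, red, hker⟩ := exists_residue2 (C := C) (p := p) hp1
  have hG := main_e (n := n) (d := d) hpD hp0 hp1 red hker hf
  intro K _ σ σ' ι φ hσ hφ hU D a b hD hgood Γ hΓ lam e he hlam
  have hpC : (p : C) ≠ 0 := norm_pos_iff.1 hp0
  have hpK : (p : K) ≠ 0 := by
    intro h
    apply hpC
    have := congrArg ι h
    rwa [map_natCast, map_zero] at this
  have hpQ : (p : QA) ≠ 0 := by exact_mod_cast hpf.out.ne_zero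
  -- the field
  have hU' : Un p ι.fieldRange f := fun c hc hc1 => hU c hc hc1
  set F := ι.fieldRange.topologicalClosure with hF
  have hFc : IsClosed (F : Set C) := Subfield.isClosed_topologicalClosure _
  have hFU : Un p F f := Un_closure hp0 hp1 hU'
  have hιF : ∀ x, ι x ∈ F := fun x => Subfield.le_topologicalClosure _ ⟨x, rfl⟩
  -- the scaled polynomials
  set u : Fin n → K := fun i => lam i * (p : K) ^ e with hu
  have hu1 : ∀ i, ‖ι (u i)‖ = 1 := by
    intro i
    rw [hu]
    simp only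
    rw [map_mul, map_pow, map_natCast, norm_mul, hlam, norm_pow, inv_pow]
    exact inv_mul_cancel₀ (pow_pos hp0 _).ne'
  have hu0 : ∀ i, u i ≠ 0 := by
    intro i h0
    have := hu1 i
    rw [h0, map_zero, norm_zero] at this
    exact zero_ne_one this
  set a' : Fin n → K[X] := fun i => Polynomial.C (u i) * a i with ha'
  have ia' : ∀ i m, ‖ι ((a' i).coeff m)‖ ≤ 1 := by
    intro i m
    rw [ha']
    simp only
    rw [coeff_C_mul, map_mul, norm_mul, hu1, one_mul]
    exact hgood.ia i m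
  have da' : ∀ i, (a' i).natDegree ≤ D i := fun i => (natDegree_C_mul_le _ _).trans (hgood.da i)
  have hab' : ∀ i, a' i * b i = Polynomial.C (u i) * (a i * b i) := fun i => by
    rw [ha']
    ring
  have r1' : ∀ i, ‖ι (resultant (a' i) (b i) (D i) (D i))‖ = 1 := by
    intro i
    rw [ha']
    simp only
    rw [resultant_C_mul_left, map_mul, map_pow, norm_mul, norm_pow, hu1, one_pow, one_mul]
    exact hgood.r1 i
  have r2' : ∀ i j, i ≠ j →
      ‖ι (resultant (a' i * b i) (a' j * b j) (D i + D i) (D j + D j))‖ = 1 := by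
    intro i j hij
    rw [hab', hab', resultant_C_mul_left, resultant_C_mul_right, map_mul, map_mul, map_pow, map_pow,
      norm_mul, norm_mul, norm_pow, norm_pow, hu1, hu1, one_pow, one_pow, one_mul, one_mul]
    exact hgood.r2 i j hij
  -- lifts
  have hlift : ∀ P : K[X], (∀ m, ‖ι (P.coeff m)‖ ≤ 1) → ∃ G : (OO C)[X],
      G.map (OO C).subtype = P.map ι := by
    intro P hP
    apply exists_lift_OO
    rw [mem_PS]
    intro m
    rw [coeff_map]
    exact hP m
  choose A hA using fun i => hlift (a' i) (ia' i)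
  choose B hB using fun i => hlift (b i) (hgood.ib i)
  have hinj : Function.Injective (OO C).subtype := Subtype.val_injective
  have dA : ∀ i, (A i).natDegree ≤ D i := fun i => by
    rw [← natDegree_map_eq_of_injective hinj, hA]
    exact natDegree_map_le.trans (da' i)
  have dB : ∀ i, (B i).natDegree ≤ D i := fun i => by
    rw [← natDegree_map_eq_of_injective hinj, hB]
    exact natDegree_map_le.trans (hgood.db i)
  have hres : ∀ (P Q : (OO C)[X]) (P' Q' : K[X]) (m l : ℕ), P.map (OO C).subtype = P'.map ι →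
      Q.map (OO C).subtype = Q'.map ι → ‖ι (resultant P' Q' m l)‖ = 1 →
      red (resultant P Q m l) ≠ 0 := by
    intro P Q P' Q' m l hP hQ h
    rw [red_unit hker]
    have e : ((resultant P Q m l : OO C) : C) = ι (resultant P' Q' m l) := by
      have h1 := resultant_map_map P Q m l (OO C).subtype
      have h2 := resultant_map_map P' Q' m l ι
      rw [hP, hQ] at h1
      rw [h1] at h2
      exact h2
    rw [e]
    exact h
  -- the curve
  have hinjσ : Function.Injective σ' := σ'.injective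
  have hmapQ : ∀ P : K[X], (P.map σ').map φ = P.map ι := by
    intro P
    rw [Polynomial.map_map]
    congr 1
    exact RingHom.ext hφ
  let 𝒬 : QF n :=
    { α := fun i => (a' i).map σ'
      β := fun i => Polynomial.C ((p : QA) ^ e) * (b i).map σ'
      D := D
      hD := fun i => (hD i).1
      dα := fun i => natDegree_map_le.trans (da' i)
      dβ := fun i => (natDegree_C_mul_le _ _).trans (natDegree_map_le.trans (hgood.db i))
      c1 := fun i => by
        refine gcop_of_res (natDegree_map_le.trans (da' i))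
          ((natDegree_C_mul_le _ _).trans (natDegree_map_le.trans (hgood.db i)))
          (hD i).1 (hD i).1 ?_
        rw [resultant_C_mul_right, resultant_map_map]
        refine mul_ne_zero (pow_ne_zero _ (pow_ne_zero _ hpQ)) ((map_ne_zero σ').2 fun h0 => ?_)
        have := r1' i
        rw [h0, map_zero, norm_zero] at this
        exact zero_ne_one this
      c2 := fun i j hij => by
        have e1 : ∀ i, (a' i).map σ' * (Polynomial.C ((p : QA) ^ e) * (b i).map σ') =
            Polynomial.C ((p : QA) ^ e) * (a' i * b i).map σ' := fun i => by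
          have e2 : (a' i * b i).map σ' = (a' i).map σ' * (b i).map σ' := Polynomial.map_mul σ'
          rw [e2]
          ring
        rw [e1, e1]
        have hd2 : ∀ i, (Polynomial.C ((p : QA) ^ e) * (a' i * b i).map σ').natDegree ≤ D i + D i :=
          fun i => (natDegree_C_mul_le _ _).trans (natDegree_map_le.trans
            (natDegree_mul_le_of_le (da' i) (hgood.db i)))
        refine gcop_of_res (hd2 i) (hd2 j) (by have := (hD i).1; omega) (by have := (hD j).1; omega) ?_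
        rw [resultant_C_mul_left, resultant_C_mul_right, resultant_map_map]
        refine mul_ne_zero (pow_ne_zero _ (pow_ne_zero _ hpQ))
          (mul_ne_zero (pow_ne_zero _ (pow_ne_zero _ hpQ)) ((map_ne_zero σ').2 fun h0 => ?_))
        have := r2' i j hij
        rw [h0, map_zero, norm_zero] at this
        exact zero_ne_one this }
  have hσmap : ∀ P : K[X], P.map σ = (P.map σ').map rA := by
    intro P
    rw [Polynomial.map_map]
    congr 1
    exact RingHom.ext fun x => (hσ x).symm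
  have hpe : (p : ℂ) ^ e ≠ 0 := pow_ne_zero _ (by exact_mod_cast hpf.out.ne_zero)
  have hσu : ∀ i, σ (u i) = σ (lam i) * (p : ℂ) ^ e := fun i => by
    rw [hu]
    simp only
    rw [map_mul, map_pow, map_natCast]
  have hevα : ∀ i (τ : ℂ), ev (𝒬.α i) τ = σ (lam i) * (p : ℂ) ^ e * ((a i).map σ).eval τ := by
    intro i τ
    show (((a' i).map σ').map rA).eval τ = _
    rw [← hσmap, ha']
    simp only
    rw [Polynomial.map_mul, Polynomial.map_C, eval_mul, eval_C, hσu]
  have hevβ : ∀ i (τ : ℂ), ev (𝒬.β i) τ = (p : ℂ) ^ e * ((b i).map σ).eval τ := by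
    intro i τ
    show ((Polynomial.C ((p : QA) ^ e) * (b i).map σ').map rA).eval τ = _
    rw [Polynomial.map_mul, Polynomial.map_C, ← hσmap, eval_mul, eval_C, map_pow, map_natCast]
  have hinfα : ∀ i, rA ((𝒬.α i).coeff (𝒬.D i)) = σ (lam i) * (p : ℂ) ^ e * σ ((a i).coeff (D i)) := by
    intro i
    show rA (((a' i).map σ').coeff (D i)) = _
    rw [coeff_map, hσ, ha']
    simp only
    rw [coeff_C_mul, map_mul, hσu]
  have hinfβ : ∀ i, rA ((𝒬.β i).coeff (𝒬.D i)) = (p : ℂ) ^ e * σ ((b i).coeff (D i)) := by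
    intro i
    show rA ((Polynomial.C ((p : QA) ^ e) * (b i).map σ').coeff (D i)) = _
    rw [coeff_C_mul, coeff_map, map_mul, hσ, map_pow, map_natCast]
  have hcrv : crvK σ D lam a b = 𝒬.Pts := by
    ext x
    constructor
    · rintro ⟨s, t, hst, hx⟩
      by_cases ht : t = 0
      · right
        subst ht
        have hs : s ≠ 0 := by simpa using hst
        intro i
        have h1 := hx i
        rw [form_inf, form_inf] at h1
        rw [hinfα, hinfβ]
        have h2 : s ^ D i ≠ 0 := pow_ne_zero _ hs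
        apply mul_left_cancel₀ h2
        linear_combination (p : ℂ) ^ e * h1
      · left
        refine ⟨s / t, fun i => ?_⟩
        have h1 := hx i
        rw [form_affine σ (hgood.da i) ht, form_affine σ (hgood.db i) ht] at h1
        rw [hevα, hevβ]
        have h2 : t ^ D i ≠ 0 := pow_ne_zero _ ht
        apply mul_left_cancel₀ h2
        linear_combination (p : ℂ) ^ e * h1
    · rintro (⟨τ, hx⟩ | hx)
      · refine ⟨τ, 1, Or.inr one_ne_zero, fun i => ?_⟩
        have h1 := hx i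
        rw [hevα, hevβ] at h1
        rw [form_affine σ (hgood.da i) one_ne_zero, form_affine σ (hgood.db i) one_ne_zero, div_one]
        apply mul_left_cancel₀ hpe
        linear_combination h1
      · refine ⟨1, 0, Or.inl one_ne_zero, fun i => ?_⟩
        have h1 := hx i
        rw [hinfα, hinfβ] at h1
        rw [form_inf, form_inf]
        apply mul_left_cancel₀ hpe
        linear_combination h1
  rw [hcrv]
  refine hG F hFc hFU A B D hD (fun i => ?_) (fun i => ?_) dA dB (fun i => ?_) (fun i j hij => ?_)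
    φ (fun i => (a' i).map σ') (fun i => (b i).map σ') (fun i => by rw [hmapQ, hA])
    (fun i => by rw [hmapQ, hB]) (fun cO hcO => ?_) Γ
    (fun γ hγ => ?_) e he 𝒬 rfl rfl rfl
  · rw [mem_PR]
    intro m
    rw [mem_FO]
    have := congrArg (fun q => Polynomial.coeff q m) (hA i)
    simp only [coeff_map] at this
    have h2 : ((A i).coeff m : C) = ι ((a' i).coeff m) := this
    rw [h2]
    exact hιF _
  · rw [mem_PR]
    intro m
    rw [mem_FO]
    have := congrArg (fun q => Polynomial.coeff q m) (hB i)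
    simp only [coeff_map] at this
    have h2 : ((B i).coeff m : C) = ι ((b i).coeff m) := this
    rw [h2]
    exact hιF _
  · exact cop_of_res (dA i) (dB i) (hD i).1 (hD i).1 (hres _ _ _ _ _ _ (hA i) (hB i) (r1' i))
  · refine cop_of_res (natDegree_mul_le_of_le (dA i) (dB i)) (natDegree_mul_le_of_le (dA j) (dB j))
      (by have := (hD i).1; omega) (by have := (hD j).1; omega)
      (hres _ _ (a' i * b i) (a' j * b j) _ _ ?_ ?_ (r2' i j hij))
    · rw [Polynomial.map_mul, Polynomial.map_mul, hA, hB]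
    · rw [Polynomial.map_mul, Polynomial.map_mul, hA, hB]
  · obtain ⟨z, hz⟩ := cj_int' 1
    have h1 : cO = (z : OO C) := by
      apply Subtype.ext
      rw [hcO, hz, map_intCast, map_intCast]
      simp
    rw [h1, map_intCast]
    exact intCast_mem _ _
  · obtain ⟨m, hm, hint⟩ := hΓ γ hγ
    exact pInt hp1 φ hm hint

theorem main_nf_e (n d p f : ℕ) (hp : p.Prime) (hpD : 16 * (d + 1) ^ 4 < p) (hf : 0 < f) :
    ∀ (K : Type) [Field K] [NumberField K] (σ : K →+* ℂ) (v : HeightOneSpectrum (𝓞 K)),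
      (p : 𝓞 K) ∈ v.asIdeal → (p : 𝓞 K) ∉ v.asIdeal ^ 2 → Nat.card (𝓞 K ⧸ v.asIdeal) = p ^ f →
      ∀ (D : Fin n → ℕ) (a b : Fin n → K[X]), (∀ i, 0 < D i ∧ D i ≤ d) →
      (∀ i, (a i).natDegree ≤ D i) → (∀ i, (b i).natDegree ≤ D i) →
      (∀ i m, v.valuation K ((a i).coeff m) ≤ 1) → (∀ i m, v.valuation K ((b i).coeff m) ≤ 1) →
      (∀ i, v.valuation K (resultant (a i) (b i) (D i) (D i)) = 1) →
      (∀ i j, i ≠ j →
        v.valuation K (resultant (a i * b i) (a j * b j) (D i + D i) (D j + D j)) = 1) →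
      ∀ Γ : Finset ℂ, (∀ γ ∈ Γ, ∃ m : ℕ, ¬ p ∣ m ∧ IsIntegral ℤ ((m : ℂ) * γ)) →
      ∀ (lam : Fin n → K) (e : ℕ), 0 < e →
      (∀ i, v.valuation K (lam i) = WithZero.exp (e : ℤ)) →
      (∀ x ∈ crvK σ D lam a b, ∀ (r : ℕ) (Z : SV (Γ : Set ℂ) n r), r + 2 ≤ n → x ∈ Z.locus →
        ∃ j l : Fin n, j ≠ l ∧ ∃ N : ℕ, 0 < N ∧ N ≤ bN p f d ∧ Isog N (x j) (x l)) ∧
      {x | x ∈ crvK σ D lam a b ∧
        ∃ (r : ℕ) (Z : SV (Γ : Set ℂ) n r), r + 2 ≤ n ∧ x ∈ Z.locus}.Finite ∧
      {x | x ∈ crvK σ D lam a b ∧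
        ∃ (r : ℕ) (Z : SV (Γ : Set ℂ) n r), r + 2 ≤ n ∧ x ∈ Z.locus}.ncard ≤
        2 * (mN n d p * (2 * d)) ∧
      ∀ (r : ℕ) (Z : SV (Γ : Set ℂ) n r), r < n → ¬ crvK σ D lam a b ⊆ Z.locus := by
  haveI hpf : Fact p.Prime := ⟨hp⟩
  obtain ⟨C, _, _, _, _, _, φ, hpn⟩ := exists_padic p
  have hpR : (1 : ℝ) < p := by exact_mod_cast hp.one_lt
  have hp0 : 0 < ‖(p : C)‖ := by rw [hpn]; exact inv_pos.2 (by linarith)
  have hp1 : ‖(p : C)‖ < 1 := by rw [hpn]; exact inv_lt_one_of_one_lt₀ hpR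
  have hG := main_k_e (C := C) (n := n) hpD hp0 hp1 hf
  intro K _ _ σ v hpv hpv2 hB D a b hD da db ia ib r1 r2 Γ hΓ lam e he hlam
  have halgσ : ∀ x : K, IsAlgebraic ℚ (σ x) := fun x =>
    (Algebra.IsAlgebraic.isAlgebraic (R := ℚ) x).algHom σ.toRatAlgHom
  let σ' : K →+* QA :=
    { toFun := fun x => ⟨σ x, mem_QA.2 (halgσ x)⟩
      map_one' := Subtype.ext (map_one σ)
      map_mul' := fun x y => Subtype.ext (map_mul σ x y)
      map_zero' := Subtype.ext (map_zero σ)
      map_add' := fun x y => Subtype.ext (map_add σ x y) }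
  obtain ⟨ι, hι⟩ := exists_embedding hp1 v hpv
  obtain ⟨φ', hφ'⟩ := exists_phi σ' ι
  refine hG K σ σ' ι φ' (fun x => rfl) hφ' (unr_range_f hp0 hp1 hpv hpv2 hι hB) D a b hD
    ⟨da, db, fun i m => norm_le_one_of_val hι (ia i m), fun i m => norm_le_one_of_val hι (ib i m),
      fun i => norm_of_val_one hι (r1 i), fun i j hij => norm_of_val_one hι (r2 i j hij)⟩
    Γ hΓ lam e he fun i => ?_
  rw [norm_of_val hp0 hpv hpv2 hι (hlam i), zpow_neg, zpow_natCast, inv_pow]

end Pool.Agent.Y226.ZR
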