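import Pool.Agent.Y226.ZW.Disc2

/-!
# Labels of atypical parameters
-/

set_option autoImplicit false
set_option linter.unusedSectionVars false

open UpperHalfPlane H294ZP Polynomial

namespace Pool.Agent.Y226.ZW

open Pool.Agent.Y226 Pool.Agent.Y226.ZR

variable {C : Type} [NormedField C] [IsUltrametricDist C]
variable {p : ℕ} [hpf : Fact p.Prime]
variable {k : Type} [Field k]

/-- the parameter `t` has the label `b = ((j, l), x, ε)`: the coordinates `j` and `l` are good, `t`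
reduces to `x`, and the Tate parameters differ by `ε` and a root of unity of order prime to `p` -/
def LabRel {n d : ℕ} (𝒟 : PData C p n d) (red : OO C →+* k) (ψ : ZZ →+* C) (Λ : Cˣ)
    (t : OO C) (b : (Fin n × Fin n) × k × C) : Prop :=
  b.1.1 ≠ b.1.2 ∧ 𝒟.Good (t : C) b.1.1 ∧ 𝒟.Good (t : C) b.1.2 ∧ red t = b.2.1 ∧
    ‖b.2.2 - 1‖ < 1 ∧ ∃ (g' : ℕ) (ζ' : C), 0 < g' ∧ g'.Coprime p ∧ ζ' ^ g' = 1 ∧
      ∀ xj xl : C, (𝒟.B b.1.1).eval (t : C) * xj = Λ * (𝒟.A b.1.1).eval (t : C) →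
        (𝒟.B b.1.2).eval (t : C) * xl = Λ * (𝒟.A b.1.2).eval (t : C) →
        qT ψ xl = ζ' * b.2.2 * qT ψ xj

/-- roots of unity of order prime to `p` are determined by their residues -/
theorem tame_unique (hp1 : ‖(p : C)‖ < 1) {g g' : ℕ} {ζ ζ' : C} (hg : 0 < g) (hg' : 0 < g')
    (hc : g.Coprime p) (hc' : g'.Coprime p) (h : ζ ^ g = 1) (h' : ζ' ^ g' = 1)
    (hlt : ‖ζ - ζ'‖ < 1) : ζ = ζ' := by
  have hn' : ‖ζ'‖ = 1 := by
    have h1 : ‖ζ'‖ ^ g' = 1 := by rw [← norm_pow, h', norm_one]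
    exact (pow_eq_one_iff_of_nonneg (norm_nonneg _) hg'.ne').1 h1
  have h0 : ζ' ≠ 0 := norm_pos_iff.1 (by rw [hn']; exact one_pos)
  have h1 : ζ * ζ'⁻¹ = 1 := by
    refine tame_eq_one (m := g * g') ?_ ?_ ?_
    · have hdvd : ¬ ((p : ℤ) ∣ ((g * g' : ℕ) : ℤ)) := by
        rw [Int.natCast_dvd_natCast]
        intro hd
        have h2 := Nat.Coprime.mul_left hc hc'
        exact hpf.out.one_lt.ne' (Nat.Coprime.eq_one_of_dvd h2.symm hd)
      have h3 := int_unit (C := C) hp1 hdvd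
      have h4 : (((g * g' : ℕ) : ℤ) : C) = ((g * g' : ℕ) : C) := by push_cast; ring
      rwa [h4] at h3
    · rw [mul_pow, pow_mul, h, one_pow, one_mul, mul_comm g g', pow_mul, inv_pow, h', inv_one,
        one_pow]
    · have e : ζ * ζ'⁻¹ - 1 = (ζ - ζ') * ζ'⁻¹ := by
        field_simp
      rw [e, norm_mul, norm_inv, hn', inv_one, mul_one]
      exact hlt
  rw [← mul_inv_eq_one₀ h0]
  exact h1

variable [CompleteSpace C] {ψ : ZZ →+* C} (hψ : ∀ z, ‖ψ z‖ ≤ 1)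
variable {n d : ℕ} (𝒟 : PData C p n d) [CharP k p]

include hψ

/-- the residue of the root of unity is determined by the label -/
theorem lab_red (red : OO C →+* k) (hker : ∀ x : OO C, red x = 0 ↔ ‖(x : C)‖ < 1) {Λ : Cˣ}
    (hΛ : 1 < ‖(Λ : C)‖) {t Z ε : OO C} {j l : Fin n} (hj : 𝒟.Good (t : C) j)
    (hl : 𝒟.Good (t : C) l) (hε : ‖(ε : C) - 1‖ < 1)
    (h : ∀ xj xl : C, (𝒟.B j).eval (t : C) * xj = Λ * (𝒟.A j).eval (t : C) →
        (𝒟.B l).eval (t : C) * xl = Λ * (𝒟.A l).eval (t : C) →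
        qT ψ xl = Z * ε * qT ψ xj) :
    red Z * ((𝒟.bO j * 𝒟.aO l).map red).eval (red t) =
      ((𝒟.aO j * 𝒟.bO l).map red).eval (red t) := by
  have hinv1 : ‖(Λ : C)‖⁻¹ < 1 := inv_lt_one_of_one_lt₀ hΛ
  have key : ∀ i, 𝒟.Good (t : C) i → ∃ (x : C) (U : OO C), 1 < ‖x‖ ∧
      (𝒟.B i).eval (t : C) * x = Λ * (𝒟.A i).eval (t : C) ∧ (U : C) = qT ψ x * x ∧ red U = 1 := by
    intro i hi
    have hB0 : (𝒟.B i).eval (t : C) ≠ 0 := norm_pos_iff.1 (by rw [hi.2]; exact one_pos)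
    set x : C := Λ * (𝒟.A i).eval (t : C) * ((𝒟.B i).eval (t : C))⁻¹ with hx
    have hxn : ‖x‖ = ‖(Λ : C)‖ := by
      rw [hx, norm_mul, norm_mul, norm_inv, hi.1, hi.2, inv_one, mul_one, mul_one]
    have hx1 : 1 < ‖x‖ := by rw [hxn]; exact hΛ
    have h1 := qT_expand' hψ hx1
    rw [hxn] at h1
    have h2 : ‖qT ψ x * x‖ ≤ 1 := (neq_one (h1.trans_lt hinv1) norm_one).le
    refine ⟨x, ⟨qT ψ x * x, h2⟩, hx1, ?_, rfl, ?_⟩
    · rw [hx]
      field_simp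
    · rw [← map_one red]
      apply PData.red_eq red hker
      show ‖qT ψ x * x - 1‖ < 1
      exact h1.trans_lt hinv1
  obtain ⟨xj, Uj, hxj, h1, h2, h3⟩ := key j hj
  obtain ⟨xl, Ul, hxl, h1', h2', h3'⟩ := key l hl
  have hq := h xj xl h1 h1'
  have hΛ0 : (Λ : C) ≠ 0 := Λ.ne_zero
  have hεr : red ε = 1 := by
    rw [← map_one red]
    exact PData.red_eq red hker hε
  have hqj : qT ψ xj ≠ 0 := qT_ne hψ hxj
  have e1 : Z * ε * Uj * ((𝒟.bO j).eval t * (𝒟.aO l).eval t) =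
      Ul * ((𝒟.aO j).eval t * (𝒟.bO l).eval t) := by
    apply Subtype.ext
    push_cast
    rw [𝒟.bO_eval, 𝒟.aO_eval, 𝒟.aO_eval, 𝒟.bO_eval, h2, h2', hq]
    apply mul_left_cancel₀ hΛ0
    linear_combination ((Z : C) * ε * qT ψ xj * xj * (𝒟.B j).eval (t : C)) * (-h1') +
      (Z * ε * qT ψ xj * xl * (𝒟.B l).eval (t : C)) * h1
  have e2 := congrArg red e1
  rw [map_mul, map_mul, map_mul, map_mul, map_mul, map_mul, hεr, h3, h3', mul_one, mul_one,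
    one_mul] at e2
  rw [Polynomial.map_mul, Polynomial.map_mul, eval_mul, eval_mul, eval_map_apply, eval_map_apply,
    eval_map_apply, eval_map_apply]
  exact e2

/-- at most `2 d` parameters have a given label -/
theorem lab_count (hp1 : ‖(p : C)‖ < 1) (red : OO C →+* k)
    (hker : ∀ x : OO C, red x = 0 ↔ ‖(x : C)‖ < 1) {Λ : Cˣ}
    (hΛ : 1 < ‖(Λ : C)‖) (b : (Fin n × Fin n) × k × C) (T : Finset (OO C))
    (hT : ∀ t ∈ T, LabRel 𝒟 red ψ Λ t b) : T.card ≤ 2 * d := by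
  classical
  rcases T.eq_empty_or_nonempty with rfl | ⟨t₀, ht₀⟩
  · simp
  obtain ⟨⟨j, l⟩, x, ε⟩ := b
  obtain ⟨hjl, hj₀, hl₀, hr₀, hε, g₀, ζ₀, hg₀, hc₀, hζ₀, hrel₀⟩ := hT t₀ ht₀
  simp only at hjl hj₀ hl₀ hr₀ hε hrel₀
  have hεn : ‖ε‖ = 1 := neq_one hε norm_one
  have hnorm : ∀ {g : ℕ} {ζ : C}, 0 < g → ζ ^ g = 1 → ‖ζ‖ = 1 := by
    intro g ζ hg h
    have h1 : ‖ζ‖ ^ g = 1 := by rw [← norm_pow, h, norm_one]
    exact (pow_eq_one_iff_of_nonneg (norm_nonneg _) hg.ne').1 h1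
  have hζ₀n := hnorm hg₀ hζ₀
  refine disc_count hψ 𝒟 red hker hΛ hjl
    (ζ := ⟨ζ₀ * ε, by rw [mem_OO, norm_mul, hζ₀n, hεn, one_mul]⟩)
    (by show ‖ζ₀ * ε‖ = 1; rw [norm_mul, hζ₀n, hεn, one_mul]) T ?_
  intro t ht
  obtain ⟨-, hj, hl, hr, -, g, ζ, hg, hc, hζ, hrel⟩ := hT t ht
  simp only at hj hl hr hrel
  refine ⟨hj, hl, fun xj xl h1 h2 => ?_⟩
  have hζn := hnorm hg hζ
  have heq : ζ = ζ₀ := by
    refine tame_unique hp1 hg hg₀ hc hc₀ hζ hζ₀ ?_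
    set Z : OO C := ⟨ζ, hζn.le⟩ with hZ
    set Z₀ : OO C := ⟨ζ₀, hζ₀n.le⟩ with hZ₀
    set E : OO C := ⟨ε, hεn.le⟩ with hE
    have e1 := lab_red hψ 𝒟 red hker hΛ (Z := Z) (ε := E) hj hl hε hrel
    have e2 := lab_red hψ 𝒟 red hker hΛ (Z := Z₀) (ε := E) hj₀ hl₀ hε hrel₀
    rw [hr] at e1
    rw [hr₀] at e2
    have hne : ((𝒟.bO j * 𝒟.aO l).map red).eval x ≠ 0 := by
      rw [← hr₀, Polynomial.map_mul, eval_mul, eval_map_apply, eval_map_apply]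
      refine mul_ne_zero (PData.red_ne red hker ?_) (PData.red_ne red hker ?_)
      · rw [𝒟.bO_eval]; exact hj₀.2
      · rw [𝒟.aO_eval]; exact hl₀.1
    have e3 : red Z = red Z₀ := mul_right_cancel₀ hne (e1.trans e2.symm)
    have e4 : red (Z - Z₀) = 0 := by rw [map_sub, e3, sub_self]
    exact (hker _).1 e4
  rw [hrel xj xl h1 h2, heq]

end Pool.Agent.Y226.ZW
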