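import Pool.Agent.Y226.ZW.Lab

/-!
# The local theorem with labels
-/

set_option autoImplicit false
set_option linter.unusedSectionVars false

open UpperHalfPlane H294ZP Polynomial

namespace Pool.Agent.Y226.PData

open Pool.Agent.Y226.ZR Pool.Agent.Y226.ZW

section

variable {C : Type} [NormedField C] [IsUltrametricDist C] [CompleteSpace C] [CharZero C]
  [IsAlgClosed C]
variable {p : ℕ} [hpf : Fact p.Prime]
variable {ψ : ZZ →+* C} {K₀ : Type} [Field K₀] {i₀ : ZZ →+* K₀} {ρ : K₀ →+* ℂ} {φ : K₀ →+* C}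
variable {n d : ℕ} (𝒟 : PData C p n d)

/-- the relation between two good coordinates of the same class -/
theorem pair_info_x (hψ : ∀ z, ‖ψ z‖ ≤ 1) (hρ : ρ.comp i₀ = ιZ) (hφ : φ.comp i₀ = ψ)
    (hp0 : 0 < ‖(p : C)‖) (hp1 : ‖(p : C)‖ < 1) {Λ : Cˣ} {e : ℕ} (he : 0 < e)
    (hΛn : ‖(Λ : C)‖ = ‖(p : C)‖⁻¹ ^ e) {κ : OO C} (hκ : (p : C) * κ * Λ = ψ (cj 1))
    {X : Fin n → K₀} {t : C}
    (hX : ∀ i, (𝒟.B i).eval t * φ (X i) = Λ * (𝒟.A i).eval t) {Y : Fin n → Cˣ} {j k : Fin n}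
    (hj : 𝒟.Val t Y j) (hk : 𝒟.Val t Y k) {τ w : ℍ} {a b c d' : ℤ} (hdet : 0 < a * d' - b * c)
    (hw : (w : ℂ) * (c * τ + d') = a * τ + b) (hjτ : ρ (X j) = jj τ) (hkw : ρ (X k) = jj w) :
    ∃ (g' s : ℕ) (ζ' ε : Cˣ), 0 < g' ∧ g'.Coprime p ∧ IsPrimitiveRoot (ζ' : C) g' ∧
      IsPrimitiveRoot (ε : C) (p ^ s) ∧
      ‖((Y k * (Y j)⁻¹ * (ζ' * ε) : Cˣ) : C) -
        (1 + p * κ * (((Y k : Cˣ) : C)⁻¹ - ((Y j : Cˣ) : C)⁻¹))‖ ≤ ‖(p : C)‖ ^ 2 ∧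
      PsiE ιZ (mP ((g' * p ^ s) ^ 2)) (mD ((g' * p ^ s) ^ 2)) (ρ (X j)) (ρ (X k)) = 0 ∧
      qT ψ (φ (X k)) = (ζ' : C) * ε * qT ψ (φ (X j)) := by
  have hxj := 𝒟.coord_good hX hj
  have hxk := 𝒟.coord_good hX hk
  have hYj := 𝒟.Y_norm hj
  have hYk := 𝒟.Y_norm hk
  have hpe : ‖(p : C)‖ ^ e < 1 := pow_lt_one₀ (norm_nonneg _) hp1 he.ne'
  have hpe0 : 0 < ‖(p : C)‖ ^ e := pow_pos hp0 e
  have hΛ1 : 1 < ‖(Λ : C)‖ := by
    rw [hΛn, inv_pow]; exact (one_lt_inv₀ hpe0).2 hpe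
  have hnj : ‖φ (X j)‖ = ‖(Λ : C)‖ := by rw [hxj, norm_mul, hYj, mul_one]
  have hnk : ‖φ (X k)‖ = ‖(Λ : C)‖ := by rw [hxk, norm_mul, hYk, mul_one]
  have hj1 : 1 < ‖φ (X j)‖ := by rw [hnj]; exact hΛ1
  have hk1 : 1 < ‖φ (X k)‖ := by rw [hnk]; exact hΛ1
  obtain ⟨A, B, g, ζ, hA, hB, hAB, hg, hζ, hq, -, hΨ⟩ :=
    tate_rel hψ hρ hφ hdet hw hjτ hkw hj1
  -- `A = B = 1`
  have hζn : ‖ζ‖ = 1 := by
    have h1 : ‖ζ‖ ^ g = 1 := by rw [← norm_pow, hζ.pow_eq_one, norm_one]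
    exact (pow_eq_one_iff_of_nonneg (norm_nonneg _) hg.ne').1 h1
  have hABe : A = B := by
    have h1 := congrArg norm hq
    rw [norm_mul, norm_pow, norm_pow, hζn, one_mul, qT_norm hψ hk1, qT_norm hψ hj1, hnj, hnk] at h1
    have h2 : 0 < ‖(Λ : C)‖⁻¹ := inv_pos.2 (one_pos.trans hΛ1)
    have h3 : ‖(Λ : C)‖⁻¹ < 1 := inv_lt_one_of_one_lt₀ hΛ1
    exact (pow_right_injective₀ h2 h3.ne h1).symm
  subst hABe
  have hA1 : A = 1 := by
    have := hAB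
    rwa [Nat.coprime_self] at this
  subst hA1
  rw [pow_one, pow_one] at hq
  obtain ⟨g', s, ζ', ε, hgg, hg'p, hζ', hε, hζe⟩ := root_decomp (p := p) hg hζ
  have hg'0 : 0 < g' := Nat.pos_of_ne_zero (by
    rintro rfl
    rw [zero_mul] at hgg
    omega)
  have hζ'0 : ζ' ≠ 0 := hζ'.ne_zero hg'0.ne'
  have hε0 : ε ≠ 0 := hε.ne_zero (pow_pos hpf.out.pos _).ne'
  refine ⟨g', s, Units.mk0 ζ' hζ'0, Units.mk0 ε hε0, hg'0, hg'p, hζ', hε, ?_, ?_, ?_⟩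
  · -- second order expansion
    set qj := qT ψ (φ (X j)) with hqj
    set qk := qT ψ (φ (X k)) with hqk
    have ej := qT_expand hψ hj1
    have ek := qT_expand hψ hk1
    have ej' := qT_expand' hψ hj1
    rw [← hqj] at ej ej'
    rw [← hqk] at ek
    rw [hnj] at ej ej'
    rw [hnk] at ek
    have hΛinv : ‖(Λ : C)‖⁻¹ = ‖(p : C)‖ ^ e := by rw [hΛn, inv_pow, inv_inv]
    rw [hΛinv] at ej ej' ek
    have hpe2 : (‖(p : C)‖ ^ e) ^ 2 ≤ ‖(p : C)‖ ^ 2 := by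
      apply pow_le_pow_left₀ hpe0.le
      exact pow_le_of_le_one (norm_nonneg _) hp1.le he.ne'
    have hpe1 : ‖(p : C)‖ ^ e ≤ ‖(p : C)‖ := pow_le_of_le_one (norm_nonneg _) hp1.le he.ne'
    have hxj0 : φ (X j) ≠ 0 := norm_pos_iff.1 (one_pos.trans hj1)
    have hxk0 : φ (X k) ≠ 0 := norm_pos_iff.1 (one_pos.trans hk1)
    have hqj0 : qj ≠ 0 := qT_ne hψ hj1
    have hΛ0 : (Λ : C) ≠ 0 := Λ.ne_zero
    set uj := qj * φ (X j) with huj
    set uk := qk * φ (X k) with huk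
    have huj1 : ‖uj‖ = 1 := neq_one (ej'.trans_lt (hpe1.trans_lt hp1)) norm_one
    have huj0 : uj ≠ 0 := norm_pos_iff.1 (by rw [huj1]; exact one_pos)
    set cj' : C := ψ (cj 1) * (φ (X j))⁻¹ with hcj'
    set ck' : C := ψ (cj 1) * (φ (X k))⁻¹ with hck'
    have hYj0 : ((Y j : Cˣ) : C) ≠ 0 := (Y j).ne_zero
    have hYk0 : ((Y k : Cˣ) : C) ≠ 0 := (Y k).ne_zero
    have e1 : (p : C) * κ * (((Y k : Cˣ) : C)⁻¹ - ((Y j : Cˣ) : C)⁻¹) = ck' - cj' := by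
      rw [hcj', hck', ← hκ, hxj, hxk]
      field_simp
    have hcn : ‖ck' - cj'‖ ≤ ‖(p : C)‖ := by
      rw [← e1, mul_assoc]
      refine nmul_le' le_rfl (nmul_le κ.2 (nsub_le ?_ ?_))
      · rw [norm_inv, hYk, inv_one]
      · rw [norm_inv, hYj, inv_one]
    have e2 : ((Y k * (Y j)⁻¹ * (Units.mk0 ζ' hζ'0 * Units.mk0 ε hε0) : Cˣ) : C) = uk * uj⁻¹ := by
      rw [Units.val_mul, Units.val_mul, Units.val_mul, Units.val_inv_eq_inv_val, Units.val_mk0,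
        Units.val_mk0, ← hζe, huk, huj, hq, hxj, hxk]
      field_simp
    rw [e1, e2]
    have e3 : uk * uj⁻¹ - (1 + (ck' - cj')) =
        ((uk - (1 + ck')) - (uj - (1 + cj')) - (uj - 1) * (ck' - cj')) * uj⁻¹ := by
      field_simp
      ring
    rw [e3]
    refine nmul_le' (nsub_le (nsub_le (ek.trans hpe2) (ej.trans hpe2)) ?_) ?_
    · rw [norm_mul, sq]
      have := norm_nonneg (uj - 1)
      gcongr
      exact ej'.trans hpe1
    · rw [norm_inv, huj1, inv_one]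
  · rw [hjτ, hkw]
    rw [one_mul, one_mul] at hΨ
    rw [← hgg]
    exact hΨ
  · rw [Units.val_mk0, Units.val_mk0, ← hζe]
    exact hq

end

variable {C : Type} [NormedField C] [IsUltrametricDist C] [CompleteSpace C] [CharZero C]
  [IsAlgClosed C]
variable {p : ℕ} [hpf : Fact p.Prime]

theorem local_main_l {n d : ℕ} (hpD : 16 * (d + 1) ^ 4 < p) (hp0 : 0 < ‖(p : C)‖)
    (hp1 : ‖(p : C)‖ < 1) {k : Type} [Field k] [CharP k p] (red : OO C →+* k)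
    (hker : ∀ x : OO C, red x = 0 ↔ ‖(x : C)‖ < 1) {ff : ℕ} (hff : 0 < ff) :
    ∀ (𝒟 : PData C p n d) (F : Subfield C), IsClosed (F : Set C) → Un p F ff →
      (∀ i m, (𝒟.A i).coeff m ∈ F) → (∀ i m, (𝒟.B i).coeff m ∈ F) →
      ∀ (φ : QA →+* C) (Λ pu : Cˣ) (e : ℕ), 0 < e → (pu : C) = p →
      Λ * pu ^ (e : ℤ) ∈ GG C p 0 le_rfl one_pos →
      ∀ κ : OO C, (p : C) * κ * Λ = φ (iA (cj 1)) → red κ ∈ FK k p ff →
      ∃ 𝓛 : Finset ((Fin n × Fin n) × k × C),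
      𝓛.card ≤ n * (n * (n * n)) * (8 * d * p + 4 * d) + n * (n * n * ((d + d) * p ^ 2)) ∧
      ∀ (X : Fin n → QA) (t : C) (ht : ‖t‖ ≤ 1),
      (∃ (t₀ : C) (f : ℕ), 0 < f ∧ t₀ ^ p ^ f = t₀ ∧ ‖t - t₀‖ < 1) →
      (∀ i, (𝒟.B i).eval t ≠ 0) →
      (∀ i, (𝒟.B i).eval t * φ (X i) = Λ * (𝒟.A i).eval t) →
      ∀ (r : ℕ) (cls : Fin n → Option (Fin r)), r + 2 ≤ n →
      (∀ i, cls i = none → ‖φ (X i)‖ ≤ 1) →
      (∀ (j l : Fin n) (c : Fin r), cls j = some c → cls l = some c →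
        ∃ (w w' : ℍ) (a b c' d' : ℤ), 0 < a * d' - b * c' ∧ (w' : ℂ) * (c' * w + d') = a * w + b ∧
          rA (X j) = jj w ∧ rA (X l) = jj w') →
      ∃ j k : Fin n, j ≠ k ∧ (∃ c, cls j = some c ∧ cls k = some c) ∧ ∃ N : ℕ, 0 < N ∧
        N ≤ (p ^ (ff * (8 * d * p + 4 * d)) * p ^ 2) ^ 2 ∧
        PsiE ιZ (mP N) (mD N) (rA (X j)) (rA (X k)) = 0 ∧
        ∃ b ∈ 𝓛, LabRel 𝒟 red (φ.comp iA) Λ ⟨t, ht⟩ b := by
  classical
  by_cases hn2 : n < 2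
  · exact fun 𝒟 F _ _ _ _ φ Λ pu e _ _ _ κ _ _ => ⟨∅, by simp, fun X t _ _ _ _ r cls hr => by omega⟩
  push Not at hn2
  set M : ℕ := 8 * d * p + 4 * d with hM
  set G₁ : ℕ := p ^ (ff * M) with hG₁
  intro 𝒟 F hFc hF hA hB φ Λ pu e he hpu hΛ κ hκ hκr
  set ψ : ZZ →+* C := φ.comp iA with hψdef
  have hψ : ∀ z, ‖ψ z‖ ≤ 1 := psi_norm φ
  have hρ : rA.comp iA = ιZ := rA_comp
  have hφ : φ.comp iA = ψ := rfl
  -- the norm of `Λ`
  have hΛn : ‖(Λ : C)‖ = ‖(p : C)‖⁻¹ ^ e := by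
    have h1 := GG_norm hΛ
    rw [Units.val_mul, norm_mul, Units.val_zpow_eq_zpow_val, norm_zpow, hpu, zpow_natCast] at h1
    rw [inv_pow]
    exact eq_inv_of_mul_eq_one_left h1
  have hpe0 : 0 < ‖(p : C)‖ ^ e := pow_pos hp0 e
  have hpe : ‖(p : C)‖ ^ e < 1 := pow_lt_one₀ (norm_nonneg _) hp1 he.ne'
  have hpe1 : ‖(p : C)‖ ^ e ≤ ‖(p : C)‖ := pow_le_of_le_one (norm_nonneg _) hp1.le he.ne'
  have hΛ1 : 1 < ‖(Λ : C)‖ := by
    rw [hΛn, inv_pow]; exact (one_lt_inv₀ hpe0).2 hpe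
  have hΛinv : ‖(Λ : C)‖⁻¹ = ‖(p : C)‖ ^ e := by rw [hΛn, inv_pow, inv_inv]
  have hpC : (p : C) ≠ 0 := norm_pos_iff.1 hp0
  have hΛ0 : (Λ : C) ≠ 0 := Λ.ne_zero
  -- the polynomial
  have hQ : ∀ q : Fin n × Fin n × Fin n × Fin n, ∃ Pp : k[X], Pp ≠ 0 ∧ Pp ∈ PR (FK k p ff) ∧ Pp.natDegree ≤ 8 * d * p + 4 * d ∧
      (q.1 ≠ q.2.1 → q.2.2.1 ≠ q.2.2.2 →
        ¬ ((q.2.2.1 = q.1 ∧ q.2.2.2 = q.2.1) ∨ (q.2.2.1 = q.2.1 ∧ q.2.2.2 = q.1)) →
        ∀ (t t₀ : OO C) (f : ℕ) (Y : Fin n → Cˣ) (ζ ζ' : OO C) (ζu ζu' : Cˣ)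
      (f₁ f₂ : ℕ), 0 < f → t₀ ^ p ^ f = t₀ → ‖(t : C) - t₀‖ < 1 → 𝒟.Val (t : C) Y q.1 →
      𝒟.Val (t : C) Y q.2.1 → 𝒟.Val (t : C) Y q.2.2.1 → 𝒟.Val (t : C) Y q.2.2.2 → (ζu : C) = ζ →
      (ζu' : C) = ζ' → 0 < f₁ → ζ ^ p ^ f₁ = ζ → 0 < f₂ → ζ' ^ p ^ f₂ = ζ' →
      Rel2 (p := p) κ Y q.1 q.2.1 ζu → Rel2 (p := p) κ Y q.2.2.1 q.2.2.2 ζu' →
      Pp.eval (red t) = 0) := by
    rintro ⟨j, l, j', l'⟩
    by_cases h : j ≠ l ∧ j' ≠ l' ∧ ¬ ((j' = j ∧ l' = l) ∨ (j' = l ∧ l' = j))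
    · obtain ⟨Pp, h1, h2, h3, h4⟩ := 𝒟.tame_main_u red hpD hp0 hp1 hker hFc hff hF hA hB κ hκr
        h.1 h.2.1 h.2.2
      exact ⟨Pp, h1, h2, h3, fun _ _ _ => h4⟩
    · exact ⟨1, one_ne_zero, one_mem _, by rw [natDegree_one]; exact Nat.zero_le _,
        fun h1 h2 h3 => absurd ⟨h1, h2, h3⟩ h⟩
  choose Q hQ0 hQm hQd hQ1 using hQ
  set Big : k[X] := (∏ q, Q q) * ∏ i, ((𝒟.aO i).map red * (𝒟.bO i).map red) with hBig
  have hBig0 : Big ≠ 0 := by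
    refine mul_ne_zero (Finset.prod_ne_zero_iff.2 fun q _ => hQ0 q)
      (Finset.prod_ne_zero_iff.2 fun i _ => ?_)
    obtain ⟨i', hi'⟩ : ∃ i' : Fin n, i ≠ i' := by
      by_cases h : (i : ℕ) = 0
      · exact ⟨⟨1, by omega⟩, fun h' => by rw [h'] at h; simp at h⟩
      · exact ⟨⟨0, by omega⟩, fun h' => h (by rw [h'])⟩
    exact mul_ne_zero (𝒟.aO_ne red hker hi') (𝒟.bO_ne red hker hi')
  have hroot : ∀ x : k, Big.eval x = 0 → ∃ r, 0 < r ∧ r ≤ M ∧ x ^ p ^ (ff * r) = x := by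
    intro x hx
    rw [hBig, eval_mul, eval_prod, eval_prod, mul_eq_zero] at hx
    rcases hx with hx | hx
    · obtain ⟨q, -, hq⟩ := Finset.prod_eq_zero_iff.1 hx
      exact ZW.root_period (hQ0 q) (hQm q) (hQd q) hq
    · obtain ⟨i, -, hi⟩ := Finset.prod_eq_zero_iff.1 hx
      obtain ⟨i', hi'⟩ : ∃ i' : Fin n, i ≠ i' := by
        by_cases h : (i : ℕ) = 0
        · exact ⟨⟨1, by omega⟩, fun h' => by rw [h'] at h; simp at h⟩
        · exact ⟨⟨0, by omega⟩, fun h' => h (by rw [h'])⟩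
      refine ZW.root_period (mul_ne_zero (𝒟.aO_ne red hker hi') (𝒟.bO_ne red hker hi'))
        (mul_mem (map_red_mem hker hp1 hF (aO_mem 𝒟 hA i)) (map_red_mem hker hp1 hF (bO_mem 𝒟 hB i)))
        ?_ hi
      refine (natDegree_mul_le_of_le (natDegree_map_le.trans (𝒟.aO_deg i))
          (natDegree_map_le.trans (𝒟.bO_deg i))).trans ?_
      have := Nat.zero_le (8 * d * p)
      omega
  set LA : Finset ((Fin n × Fin n) × k × C) := Finset.univ.biUnion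
    (fun q : Fin n × Fin n × Fin n × Fin n =>
      (Q q).roots.toFinset.image (fun x => ((q.1, q.2.1), x, (1 : C)))) with hLA
  set LB : Finset ((Fin n × Fin n) × k × C) := Finset.univ.biUnion
    (fun i : Fin n => (Finset.univ : Finset (Fin n × Fin n)) ×ˢ
      (((𝒟.aO i).map red * (𝒟.bO i).map red).roots.toFinset ×ˢ
        (nthRoots (p ^ 2) (1 : C)).toFinset)) with hLB
  have habi0 : ∀ i : Fin n, (𝒟.aO i).map red * (𝒟.bO i).map red ≠ 0 := by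
    intro i
    obtain ⟨i', hi'⟩ : ∃ i' : Fin n, i ≠ i' := by
      by_cases h : (i : ℕ) = 0
      · exact ⟨⟨1, by omega⟩, fun h' => by rw [h'] at h; simp at h⟩
      · exact ⟨⟨0, by omega⟩, fun h' => h (by rw [h'])⟩
    exact mul_ne_zero (𝒟.aO_ne red hker hi') (𝒟.bO_ne red hker hi')
  have hcardA : LA.card ≤ n * (n * (n * n)) * (8 * d * p + 4 * d) := by
    refine (Finset.card_biUnion_le_card_mul _ _ (8 * d * p + 4 * d) fun q _ => ?_).trans ?_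
    · refine Finset.card_image_le.trans ((Multiset.toFinset_card_le _).trans ?_)
      exact (card_roots' _).trans (hQd q)
    · simp [Fintype.card_prod]
  have hcardB : LB.card ≤ n * (n * n * ((d + d) * p ^ 2)) := by
    refine (Finset.card_biUnion_le_card_mul _ _ (n * n * ((d + d) * p ^ 2)) fun i _ => ?_).trans ?_
    · rw [Finset.card_product, Finset.card_product]
      refine Nat.mul_le_mul (by simp [Fintype.card_prod]) (Nat.mul_le_mul ?_ ?_)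
      · refine (Multiset.toFinset_card_le _).trans ((card_roots' _).trans ?_)
        exact natDegree_mul_le_of_le (natDegree_map_le.trans (𝒟.aO_deg i))
          (natDegree_map_le.trans (𝒟.bO_deg i))
      · exact (Multiset.toFinset_card_le _).trans (card_nthRoots _ _)
    · simp
  refine ⟨LA ∪ LB, (Finset.card_union_le _ _).trans (Nat.add_le_add hcardA hcardB), ?_⟩
  intro X t ht ⟨t₀, f, hf, ht₀, htt⟩ hB0 hX r cls hr hcm hcls
  have ht₀Nr : t₀ ∈ Nr C p := Nr_of_fixed hf ht₀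
  set tO : OO C := ⟨t, ht⟩ with htO
  set t₀O : OO C := ⟨t₀, Nr_le ht₀Nr⟩ with ht₀O
  -- the units
  have hYex : ∀ i, ∃ y : Cˣ, 𝒟.Good t i → (𝒟.A i).eval t = y * (𝒟.B i).eval t := by
    intro i
    by_cases h : 𝒟.Good t i
    · have hA : (𝒟.A i).eval t ≠ 0 := norm_pos_iff.1 (by rw [h.1]; exact one_pos)
      refine ⟨Units.mk0 ((𝒟.A i).eval t / (𝒟.B i).eval t) (div_ne_zero hA (hB0 i)), fun _ => ?_⟩
      rw [Units.val_mk0]
      have := hB0 i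
      field_simp
    · exact ⟨1, fun h' => absurd h' h⟩
  choose Y hY using hYex
  have hVal : ∀ i, 𝒟.Good t i → 𝒟.Val t Y i := fun i hi => ⟨hi, hY i hi⟩
  have hgood1 : ∀ i, 𝒟.Good t i → 1 < ‖φ (X i)‖ := by
    intro i hi
    rw [𝒟.coord_good hX (hVal i hi), norm_mul, 𝒟.Y_norm (hVal i hi), mul_one]
    exact hΛ1
  have hnone : ∀ i, 𝒟.Good t i → cls i ≠ none := by
    intro i hi h
    exact absurd (hgood1 i hi) (not_lt.2 (hcm i h))
  -- information on pairs of good coordinates of the same class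
  have hinfo : ∀ j l, 𝒟.Good t j → 𝒟.Good t l → (∃ c, cls j = some c ∧ cls l = some c) →
      ∃ (g' s : ℕ) (ζ' ε : Cˣ), 0 < g' ∧ g'.Coprime p ∧ IsPrimitiveRoot (ζ' : C) g' ∧
      IsPrimitiveRoot (ε : C) (p ^ s) ∧
      ‖((Y l * (Y j)⁻¹ * (ζ' * ε) : Cˣ) : C) -
        (1 + p * κ * (((Y l : Cˣ) : C)⁻¹ - ((Y j : Cˣ) : C)⁻¹))‖ ≤ ‖(p : C)‖ ^ 2 ∧
      Y l * (Y j)⁻¹ * ε ∈ GG C p ‖(p : C)‖ (norm_nonneg _) hp1 ∧
      PsiE ιZ (mP ((g' * p ^ s) ^ 2)) (mD ((g' * p ^ s) ^ 2)) (rA (X j)) (rA (X l)) = 0 ∧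
      qT ψ (φ (X l)) = (ζ' : C) * ε * qT ψ (φ (X j)) := by
    intro j l hj hl ⟨c, hcj, hcl⟩
    obtain ⟨w, w', a, b, c', d', hdet, hrel, hw, hw'⟩ := hcls j l c hcj hcl
    obtain ⟨g', s, ζ', ε, h1, h2, h3, h4, h5, h6, h7⟩ := 𝒟.pair_info_x hψ hρ hφ hp0 hp1 he hΛn hκ hX
      (hVal j hj) (hVal l hl) hdet hrel hw hw'
    exact ⟨g', s, ζ', ε, h1, h2, h3, h4, h5,
      𝒟.pair_GG hp1 (hVal j hj) (hVal l hl) h1 h2 h3 h5, h6, h7⟩
  -- from the tame bound to the conclusion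
  have hfin : ∀ j l, j ≠ l → 𝒟.Good t j → 𝒟.Good t l →
      (∃ c, cls j = some c ∧ cls l = some c) →
      ∀ (g' s : ℕ) (ζ' ε : Cˣ), 0 < g' → g'.Coprime p → IsPrimitiveRoot (ζ' : C) g' →
      IsPrimitiveRoot (ε : C) (p ^ s) →
      ‖((Y l * (Y j)⁻¹ * (ζ' * ε) : Cˣ) : C) -
        (1 + p * κ * (((Y l : Cˣ) : C)⁻¹ - ((Y j : Cˣ) : C)⁻¹))‖ ≤ ‖(p : C)‖ ^ 2 →
      PsiE ιZ (mP ((g' * p ^ s) ^ 2)) (mD ((g' * p ^ s) ^ 2)) (rA (X j)) (rA (X l)) = 0 →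
      s ≤ 2 → ((∃ q, (q.1, q.2.1) = (j, l) ∧ (Q q).eval (red tO) = 0 ∧ s = 0) ∨
        ∃ i, ((𝒟.aO i).map red * (𝒟.bO i).map red).eval (red tO) = 0) →
      qT ψ (φ (X l)) = (ζ' : C) * ε * qT ψ (φ (X j)) → ∃ j k : Fin n, j ≠ k ∧ (∃ c, cls j = some c ∧ cls k = some c) ∧
        ∃ N : ℕ, 0 < N ∧ N ≤ (G₁ * p ^ 2) ^ 2 ∧
        PsiE ιZ (mP N) (mD N) (rA (X j)) (rA (X k)) = 0 ∧
        ∃ b ∈ LA ∪ LB, LabRel 𝒟 red ψ Λ tO b := by
    intro j l hjl hj hl hcc g' s ζ' ε hg' hcop hζ' hε h5 hΨ hs hlab hqq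
    have hbig : Big.eval (red tO) = 0 := by
      rw [hBig, eval_mul, eval_prod, eval_prod, mul_eq_zero]
      rcases hlab with ⟨q, -, hq0, -⟩ | ⟨i, hi⟩
      · exact Or.inl (Finset.prod_eq_zero (Finset.mem_univ q) hq0)
      · exact Or.inr (Finset.prod_eq_zero (Finset.mem_univ i) hi)
    refine ⟨j, l, hjl, hcc, (g' * p ^ s) ^ 2, ?_, ?_, hΨ, ?_⟩
    · have := hpf.out.pos
      positivity
    · have hYj := 𝒟.Y_norm (hVal j hj)
      have hYl := 𝒟.Y_norm (hVal l hl)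
      have hζn : ‖(ζ' : C)‖ = 1 := by
        have h1 : ‖(ζ' : C)‖ ^ g' = 1 := by rw [← norm_pow, hζ'.pow_eq_one, norm_one]
        exact (pow_eq_one_iff_of_nonneg (norm_nonneg _) hg'.ne').1 h1
      have hεlt : ‖(ε : C) - 1‖ < 1 := ppow_root_lt hp1 hε.pow_eq_one
      have hεn : ‖(ε : C)‖ = 1 := neq_one hεlt norm_one
      have hclose : ‖((Y l * (Y j)⁻¹ * ζ' : Cˣ) : C) - 1‖ < 1 := by
        have e1 : ((Y l * (Y j)⁻¹ * ζ' : Cˣ) : C) - 1 =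
            (((Y l * (Y j)⁻¹ * (ζ' * ε) : Cˣ) : C) -
            (1 + p * κ * (((Y l : Cˣ) : C)⁻¹ - ((Y j : Cˣ) : C)⁻¹))) +
            p * (κ * (((Y l : Cˣ) : C)⁻¹ - ((Y j : Cˣ) : C)⁻¹)) -
            ((Y l * (Y j)⁻¹ * ζ' : Cˣ) : C) * ((ε : C) - 1) := by
          simp only [Units.val_mul]; ring
        rw [e1]
        refine nsub_lt (nadd_lt (h5.trans_lt (pow_lt_one₀ (norm_nonneg _) hp1 two_ne_zero)) ?_) ?_
        · refine (nmul_le' le_rfl (nmul_le κ.2 (nsub_le ?_ ?_))).trans_lt hp1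
          · rw [norm_inv, hYl, inv_one]
          · rw [norm_inv, hYj, inv_one]
        · rw [norm_mul, Units.val_mul, Units.val_mul, Units.val_inv_eq_inv_val, norm_mul, norm_mul,
            norm_inv, hYl, hYj, hζn]
          simpa using hεlt
      obtain ⟨r', hr'0, hr'M, hr'x⟩ := hroot _ hbig
      have hg1 := (𝒟.tame_bound_u hp1 red hker (Nat.mul_pos hff hr'0) hF hA hB tO hr'x Y j l
        (hVal j hj) (hVal l hl) g' ζ' hg' hcop hζ' hclose).trans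
        (Nat.pow_le_pow_right hpf.out.pos (Nat.mul_le_mul_left ff hr'M))
      apply Nat.pow_le_pow_left
      exact Nat.mul_le_mul hg1 (Nat.pow_le_pow_right hpf.out.pos hs)
    · have hbmem : (((j, l), red tO, (ε : C)) : (Fin n × Fin n) × k × C) ∈ LA ∪ LB := by
        rw [Finset.mem_union]
        rcases hlab with ⟨q, hq, hq0, hs0⟩ | ⟨i, hi⟩
        · left
          rw [hLA, Finset.mem_biUnion]
          refine ⟨q, Finset.mem_univ _, Finset.mem_image.2 ⟨red tO, ?_, ?_⟩⟩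
          · rw [Multiset.mem_toFinset, mem_roots (hQ0 q)]
            exact hq0
          · have hε1 : (ε : C) = 1 := by
              have := hε.pow_eq_one
              rw [hs0] at this
              simpa using this
            rw [hε1, hq]
        · right
          rw [hLB, Finset.mem_biUnion]
          refine ⟨i, Finset.mem_univ _, Finset.mem_product.2 ⟨Finset.mem_univ _,
            Finset.mem_product.2 ⟨?_, ?_⟩⟩⟩
          · rw [Multiset.mem_toFinset, mem_roots (habi0 i)]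
            exact hi
          · rw [Multiset.mem_toFinset, mem_nthRoots (pow_pos hpf.out.pos 2)]
            obtain ⟨x, hx⟩ := Nat.pow_dvd_pow p hs
            rw [hx, pow_mul, hε.pow_eq_one, one_pow]
      refine ⟨_, hbmem, hjl, hj, hl, rfl, ppow_root_lt hp1 hε.pow_eq_one, g', ζ', hg', hcop,
        hζ'.pow_eq_one, fun xj xl h1 h2 => ?_⟩
      have e1 : xj = φ (X j) := mul_left_cancel₀ (hB0 j) (h1.trans (hX j).symm)
      have e2 : xl = φ (X l) := mul_left_cancel₀ (hB0 l) (h2.trans (hX l).symm)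
      rw [e1, e2]
      exact hqq
  -- a bad coordinate
  have hbadi : ∀ i, ¬ 𝒟.Good t i →
      ((𝒟.aO i).map red * (𝒟.bO i).map red).eval (red tO) = 0 := by
    intro i hi
    rw [eval_mul, eval_map_apply, eval_map_apply, ← map_mul, hker]
    show ‖(((𝒟.aO i).eval tO : OO C) : C) * (((𝒟.bO i).eval tO : OO C) : C)‖ < 1
    rw [aO_eval, bO_eval]
    rw [good_iff 𝒟 ht] at hi
    exact lt_of_le_of_ne (nmul_le (𝒟.An i ht) (𝒟.Bn i ht)) hi
  -- Claim D : two distinct pairs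
  have hclaimD : ∀ j l j' l', j ≠ l → j' ≠ l' → ¬ ((j' = j ∧ l' = l) ∨ (j' = l ∧ l' = j)) →
      𝒟.Good t j → 𝒟.Good t l → 𝒟.Good t j' → 𝒟.Good t l' →
      (∃ c, cls j = some c ∧ cls l = some c) →
      (∃ c, cls j' = some c ∧ cls l' = some c) →
      ∃ j k : Fin n, j ≠ k ∧ (∃ c, cls j = some c ∧ cls k = some c) ∧
        ∃ N : ℕ, 0 < N ∧ N ≤ (G₁ * p ^ 2) ^ 2 ∧
        PsiE ιZ (mP N) (mD N) (rA (X j)) (rA (X k)) = 0 ∧
        ∃ b ∈ LA ∪ LB, LabRel 𝒟 red ψ Λ tO b := by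
    intro j l j' l' hjl hjl' hne hj hl hj' hl' hc hc'
    obtain ⟨g₁, s₁, ζ₁, ε₁, a1, a2, a3, a4, a5, a6, a7, a8⟩ := hinfo j l hj hl hc
    obtain ⟨g₂, s₂, ζ₂, ε₂, b1, b2, b3, b4, b5, b6, b7, b8⟩ := hinfo j' l' hj' hl' hc'
    have hs₁ : s₁ = 0 ∧ s₂ = 0 := by
      by_contra hcon
      rcases le_total s₂ s₁ with h12 | h12
      · have hs : s₁ ≠ 0 := by rintro rfl; exact hcon ⟨rfl, by omega⟩
        obtain ⟨s, rfl⟩ : ∃ s, s₁ = s + 1 := ⟨s₁ - 1, by omega⟩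
        refine 𝒟.no_wild hpD hp0 hp1 ht₀Nr htt (hVal j hj) (hVal l hl) (hVal j' hj')
          (hVal l' hl') hjl hjl' hne a4 ?_ a6 b6
        obtain ⟨x, hx⟩ := Nat.pow_dvd_pow p h12
        rw [hx, pow_mul, b4.pow_eq_one, one_pow]
      · have hs : s₂ ≠ 0 := by rintro rfl; exact hcon ⟨by omega, rfl⟩
        obtain ⟨s, rfl⟩ : ∃ s, s₂ = s + 1 := ⟨s₂ - 1, by omega⟩
        refine 𝒟.no_wild hpD hp0 hp1 ht₀Nr htt (hVal j' hj') (hVal l' hl') (hVal j hj)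
          (hVal l hl) hjl' hjl ?_ b4 ?_ b6 a6
        · rintro (⟨h1, h2⟩ | ⟨h1, h2⟩)
          · exact hne (Or.inl ⟨h1.symm, h2.symm⟩)
          · exact hne (Or.inr ⟨h2.symm, h1.symm⟩)
        · obtain ⟨x, hx⟩ := Nat.pow_dvd_pow p h12
          rw [hx, pow_mul, a4.pow_eq_one, one_pow]
    obtain ⟨rfl, rfl⟩ := hs₁
    have hε₁ : ε₁ = 1 := Units.ext (by
      have := a4.pow_eq_one
      simpa using this)
    have hε₂ : ε₂ = 1 := Units.ext (by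
      have := b4.pow_eq_one
      simpa using this)
    refine hfin j l hjl hj hl hc g₁ 0 ζ₁ ε₁ a1 a2 a3 a4 a5 a7 (by norm_num)
      (Or.inl ⟨(j, l, j', l'), rfl, ?_, rfl⟩) a8
    -- the tame equation
    have hZO : ∀ (g : ℕ) (ζ : Cˣ), 0 < g → g.Coprime p → IsPrimitiveRoot (ζ : C) g →
        ∃ (z : OO C) (f₁ : ℕ), ((ζ⁻¹ : Cˣ) : C) = z ∧ 0 < f₁ ∧ z ^ p ^ f₁ = z := by
      intro g ζ hg hcop hζ
      have h1 : ‖(ζ : C)‖ ^ g = 1 := by rw [← norm_pow, hζ.pow_eq_one, norm_one]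
      have h2 : ‖(ζ : C)‖ = 1 := (pow_eq_one_iff_of_nonneg (norm_nonneg _) hg.ne').1 h1
      obtain ⟨f₁, hf₁, hff⟩ := fixed_of_pow_eq_one (p := p) hcop hζ.pow_eq_one
      refine ⟨⟨((ζ⁻¹ : Cˣ) : C), ?_⟩, f₁, rfl, hf₁, Subtype.ext ?_⟩
      · rw [mem_OO, Units.val_inv_eq_inv_val, norm_inv, h2, inv_one]
      · show ((ζ⁻¹ : Cˣ) : C) ^ p ^ f₁ = ((ζ⁻¹ : Cˣ) : C)
        rw [Units.val_inv_eq_inv_val, inv_pow, hff]
    obtain ⟨z₁, f₁, hz₁, hf₁, hzf₁⟩ := hZO g₁ ζ₁ a1 a2 a3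
    obtain ⟨z₂, f₂, hz₂, hf₂, hzf₂⟩ := hZO g₂ ζ₂ b1 b2 b3
    have hrel₁ : Rel2 (p := p) κ Y j l ζ₁⁻¹ := by
      unfold Rel2
      rw [inv_inv]
      rw [hε₁, mul_one] at a5
      exact a5
    have hrel₂ : Rel2 (p := p) κ Y j' l' ζ₂⁻¹ := by
      unfold Rel2
      rw [inv_inv]
      rw [hε₂, mul_one] at b5
      exact b5
    have h0 := hQ1 (j, l, j', l') hjl hjl' hne tO t₀O f Y z₁ z₂ ζ₁⁻¹ ζ₂⁻¹ f₁ f₂ hf
      (Subtype.ext ht₀) htt (hVal j hj) (hVal l hl) (hVal j' hj') (hVal l' hl') hz₁ hz₂ hf₁ hzf₁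
      hf₂ hzf₂ hrel₁ hrel₂
    exact h0
  -- the combinatorics
  by_cases hall : ∀ i, 𝒟.Good t i
  · obtain ⟨j, -, l, -, hjl, hc⟩ := coll cls Finset.univ (by simp; omega)
      (fun x _ => hnone x (hall x))
    obtain ⟨j', hj', l', hl', hjl', hc'⟩ := coll cls (Finset.univ.erase l)
      (by rw [Finset.card_erase_of_mem (Finset.mem_univ l)]; simp; omega)
      (fun x _ => hnone x (hall x))
    have h1 := Finset.ne_of_mem_erase hj'
    have h2 := Finset.ne_of_mem_erase hl'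
    exact hclaimD j l j' l' hjl hjl' (by
      rintro (⟨-, h⟩ | ⟨h, -⟩)
      · exact h2 h
      · exact h1 h) (hall j) (hall l) (hall j') (hall l') hc hc'
  · push Not at hall
    obtain ⟨i, hi⟩ := hall
    have hg : ∀ j, j ≠ i → 𝒟.Good t j := fun j hj => 𝒟.good_of_ne ht hi hj
    obtain ⟨j, hj, l, hl, hjl, hc⟩ := coll cls (Finset.univ.erase i)
      (by rw [Finset.card_erase_of_mem (Finset.mem_univ i)]; simp; omega)
      (fun x hx => hnone x (hg x (Finset.ne_of_mem_erase hx)))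
    have hji := Finset.ne_of_mem_erase hj
    have hli := Finset.ne_of_mem_erase hl
    obtain ⟨g₁, s₁, ζ₁, ε₁, a1, a2, a3, a4, a5, a6, a7, a8⟩ := hinfo j l (hg j hji) (hg l hli) hc
    by_cases hci0 : cls i = none
    · -- the exceptional coordinate is a singular modulus
      have hs₁ : s₁ = 0 := by
        by_contra hs
        obtain ⟨s, rfl⟩ : ∃ s, s₁ = s + 1 := ⟨s₁ - 1, by omega⟩
        refine 𝒟.no_wild_cm hpD hp0 hp1 ht₀Nr htt (hVal j (hg j hji)) (hVal l (hg l hli))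
          (i := i) ?_ hji a4 a6
        have h1 := hcm i hci0
        have h2 := congrArg norm (hX i)
        rw [norm_mul, norm_mul] at h2
        have h3 := 𝒟.Bn i ht
        have h4 : ‖(Λ : C)‖ * ‖(𝒟.A i).eval t‖ ≤ 1 := by
          rw [← h2]
          have := norm_nonneg ((𝒟.B i).eval t)
          have := norm_nonneg (φ (X i))
          nlinarith
        have h5 : ‖(𝒟.A i).eval t‖ ≤ ‖(Λ : C)‖⁻¹ := by
          rw [← one_div, le_div_iff₀ (one_pos.trans hΛ1), mul_comm]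
          exact h4
        rw [hΛinv] at h5
        exact h5.trans hpe1
      exact hfin j l hjl (hg j hji) (hg l hli) hc g₁ s₁ ζ₁ ε₁ a1 a2 a3 a4 a5 a7
        (by omega) (Or.inr ⟨i, hbadi i hi⟩) a8
    · have hnone' : ∀ x, cls x ≠ none := by
        intro x
        by_cases hx : x = i
        · rw [hx]; exact hci0
        · exact hnone x (hg x hx)
      -- Claim AB
      have hAB : ∀ m, m ≠ i → (∃ c, cls m = some c ∧ cls i = some c) →
          ∃ j k : Fin n, j ≠ k ∧ (∃ c, cls j = some c ∧ cls k = some c) ∧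
        ∃ N : ℕ, 0 < N ∧ N ≤ (G₁ * p ^ 2) ^ 2 ∧
            PsiE ιZ (mP N) (mD N) (rA (X j)) (rA (X k)) = 0 ∧
        ∃ b ∈ LA ∪ LB, LabRel 𝒟 red ψ Λ tO b := by
        intro m hmi ⟨c, hcm', hci⟩
        refine hfin j l hjl (hg j hji) (hg l hli) hc g₁ s₁ ζ₁ ε₁ a1 a2 a3 a4 a5 a7 ?_
          (Or.inr ⟨i, hbadi i hi⟩) a8
        by_contra hs
        obtain ⟨s, rfl⟩ : ∃ s, s₁ = s + 1 := ⟨s₁ - 1, by omega⟩
        have hm := hg m hmi
        obtain ⟨w, w', a, b, c', d', hdet, hrel, hw, hw'⟩ := hcls m i c hcm' hci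
        obtain ⟨A', B', g, ζ, hA', hB', hAB', hg0, hζ, hq, hi1, -⟩ :=
          tate_rel hψ hρ hφ hdet hrel hw hw' (hgood1 m hm)
        have hxi0 : φ (X i) ≠ 0 := norm_pos_iff.1 (one_pos.trans hi1)
        have hAi0 : (𝒟.A i).eval t ≠ 0 := by
          intro h0
          have := hX i
          rw [h0, mul_zero] at this
          exact (mul_ne_zero (hB0 i) hxi0) this
        have hxi : φ (X i) = Λ * ((𝒟.A i).eval t * ((𝒟.B i).eval t)⁻¹) := by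
          have h1 := hX i
          have h2 := hB0 i
          field_simp
          linear_combination h1
        have hxm := 𝒟.coord_good hX (hVal m hm)
        have hqi0 := qT_ne hψ hi1
        have hqm0 := qT_ne hψ (hgood1 m hm)
        have hζ0 : ζ ≠ 0 := hζ.ne_zero hg0.ne'
        have hle := 𝒟.wild_exc hpD hp0 hp1 ht ht₀Nr htt (hVal j (hg j hji)) (hVal l (hg l hli))
          (hVal m hm) hjl hi (Ai := Units.mk0 _ hAi0) (Bi := Units.mk0 _ (hB0 i)) rfl rfl he hpu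
          hΛ (qi := Units.mk0 _ hqi0) (ql := Units.mk0 _ hqm0)
          (by
            have h1 := qT_expand' hψ hi1
            simp only [Units.val_mul, Units.val_inv_eq_inv_val, Units.val_mk0]
            rw [mul_assoc, ← hxi]
            exact h1)
          (by
            have h1 := qT_expand' hψ (hgood1 m hm)
            rw [Units.val_mul, Units.val_mul, Units.val_mul, Units.val_mk0, mul_assoc, ← hxm]
            exact h1)
          (by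
            rw [Units.val_mul, Units.val_mul, Units.val_inv_eq_inv_val, Units.val_mk0,
              Units.val_mk0, ← hxi]
            exact hi1)
          hAB' hB' (ζ := Units.mk0 ζ hζ0) hg0 (Units.ext hζ.pow_eq_one)
          (Units.ext (by
            rw [Units.val_mul, Units.val_pow_eq_pow_val, Units.val_pow_eq_pow_val]
            exact hq)) a4 a6
        omega
      obtain ⟨j', hj', l', hl', hjl', hc'⟩ := coll cls (Finset.univ.erase l)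
        (by rw [Finset.card_erase_of_mem (Finset.mem_univ l)]; simp; omega)
        (fun x _ => hnone' x)
      have h1 := Finset.ne_of_mem_erase hj'
      have h2 := Finset.ne_of_mem_erase hl'
      by_cases hj'i : j' = i
      · subst hj'i
        obtain ⟨c, hc1, hc2⟩ := hc'
        exact hAB l' hjl'.symm ⟨c, hc2, hc1⟩
      · by_cases hl'i : l' = i
        · subst hl'i
          obtain ⟨c, hc1, hc2⟩ := hc'
          exact hAB j' hjl' ⟨c, hc1, hc2⟩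
        · exact hclaimD j l j' l' hjl hjl' (by
            rintro (⟨-, h⟩ | ⟨h, -⟩)
            · exact h2 h
            · exact h1 h) (hg j hji) (hg l hli) (hg j' hj'i) (hg l' hl'i) hc hc'

end Pool.Agent.Y226.PData
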