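import Pool.Agent.Y226.ZR.F

/-!
# Periods of the Frobenius on roots
-/

set_option autoImplicit false
set_option linter.unusedSectionVars false

open Polynomial

namespace Pool.Agent.Y226.ZW

open Pool.Agent.Y226 Pool.Agent.Y226.ZR

variable {p : ℕ} [hpf : Fact p.Prime]

/-- the roots of the polynomials of bounded degree over a finite field -/
theorem root_period {k : Type} [Field k] [CharP k p] {f : ℕ} {P : k[X]} (hP0 : P ≠ 0)
    (hP : P ∈ PR (FK k p f)) {D : ℕ} (hD : P.natDegree ≤ D) {x : k} (hx : P.eval x = 0) :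
    ∃ r, 0 < r ∧ r ≤ D ∧ x ^ p ^ (f * r) = x := by
  classical
  have hroot : ∀ m : ℕ, P.eval (x ^ p ^ (f * m)) = 0 := by
    intro m
    induction m with
    | zero => simpa using hx
    | succ m ih =>
      rw [mul_add, mul_one, pow_add, pow_mul]
      set y := x ^ p ^ (f * m) with hy
      have h1 : (iterateFrobenius k p f) (P.eval y) = 0 := by rw [ih, map_zero]
      rw [Polynomial.eval_eq_sum_range, map_sum] at h1
      rw [Polynomial.eval_eq_sum_range, ← h1]
      refine Finset.sum_congr rfl fun i _ => ?_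
      rw [map_mul, map_pow, iterateFrobenius_def, iterateFrobenius_def, mem_FK.1 (mem_PR.1 hP i)]
  have hmaps : ∀ m ∈ Finset.range (D + 1), x ^ p ^ (f * m) ∈ P.roots.toFinset := by
    intro m _
    rw [Multiset.mem_toFinset, mem_roots hP0]
    exact hroot m
  have hcard : P.roots.toFinset.card < (Finset.range (D + 1)).card := by
    rw [Finset.card_range]
    have := (Multiset.toFinset_card_le P.roots).trans (P.card_roots')
    omega
  obtain ⟨a, ha, b, hb, hab, he⟩ := Finset.exists_ne_map_eq_of_card_lt_of_maps_to hcard hmaps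
  have key : ∀ a b : ℕ, a < b → b ≤ D → x ^ p ^ (f * a) = x ^ p ^ (f * b) →
      ∃ r, 0 < r ∧ r ≤ D ∧ x ^ p ^ (f * r) = x := by
    intro a b hab hbD he
    obtain ⟨δ, hδ, rfl⟩ : ∃ δ, 0 < δ ∧ b = a + δ := ⟨b - a, by omega, by omega⟩
    refine ⟨δ, hδ, by omega, ?_⟩
    apply iterateFrobenius_inj k p (f * a)
    rw [iterateFrobenius_def, iterateFrobenius_def, he, mul_add, pow_add, pow_mul, ← pow_mul,
      mul_comm (p ^ (f * a)), pow_mul]
  rcases lt_or_gt_of_ne hab with h | h
  · exact key a b h (by have := Finset.mem_range.1 hb; omega) he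
  · exact key b a h (by have := Finset.mem_range.1 ha; omega) he.symm

end Pool.Agent.Y226.ZW
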